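import Mathlib
import Pool.Graph.R_pool_sql_team_seeded_64922ed1.X167.W.Sys
import Pool.Graph.R_seed8.Helper186.Forms

/-! Level sets of contact type and the property stated by the Weinstein conjecture. -/

open scoped Topology ContDiff Manifold
open Pool.Agent.Helper186 Pool.Agent.X167.W

noncomputable section

namespace Pool.Agent.H21.WS

universe u

/-- one-forms on the manifold of `S` -/
abbrev OneForm (S : Sys.{u}) : Type u := (x : S.M) → TangentSpace 𝓘(ℝ, S.E) x →L[ℝ] ℝ

/-- `θ` is a smooth one-form on the manifold of `S` -/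
abbrev SmoothOne (S : Sys.{u}) (θ : OneForm S) : Prop := SmoothForm θ

/-- `d θ = ω` at the point `x`; the exterior derivative `extDer` is computed in the preferred chart
at `x` -/
def IsPrimitiveAt (S : Sys.{u}) (θ : OneForm S) (x : S.M) : Prop :=
  ∀ u v : S.E, extDer 𝓘(ℝ, S.E) θ x u v = S.om x u v

/-- The level set `{H = c}` is non-empty, compact and regular. -/
structure RegularLevel (S : Sys.{u}) (H : S.M → ℝ) (c : ℝ) : Prop where
  nonempty : ∃ x, H x = c
  compact : IsCompact {x | H x = c}
  regular : ∀ x, H x = c → S.d H x ≠ 0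

/-- The form of `S` is exact at the level set `{H = c}`: there is a smooth one-form `θ` on the manifold
with `dθ = ω` at the points of the level set. -/
def ExactAt (S : Sys.{u}) (H : S.M → ℝ) (c : ℝ) : Prop :=
  ∃ θ : OneForm S, SmoothOne S θ ∧ ∀ x, H x = c → IsPrimitiveAt S θ x

/-- The level set `{H = c}` is of contact type: there is a smooth one-form `θ` with `dθ = ω` on a
neighbourhood of the level set and `θ(X) ≠ 0` on the level set, where `X` is the Hamiltonian vector
field of `H`. (`θ = ω(Y, ·)` for the Liouville field `Y`, and `θ(X) = dH(Y)`.) -/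
def ContactType (S : Sys.{u}) (H : S.M → ℝ) (c : ℝ) : Prop :=
  ∃ θ : OneForm S, SmoothOne S θ ∧ (∀ᶠ x in 𝓝ˢ {x | H x = c}, IsPrimitiveAt S θ x) ∧
    ∀ x, H x = c → ∀ X : S.E, (∀ v, S.om x X v = - S.D H x v) → θ x X ≠ 0

/-- The Weinstein conjecture holds for `H`: each non-empty compact regular level set of `H` of contact
type carries a periodic orbit. -/
def Weinstein (S : Sys.{u}) (H : S.M → ℝ) : Prop :=
  ∀ c : ℝ, RegularLevel S H c → ContactType S H c →
    ∃ (γ : ℝ → S.M) (T : ℝ), S.IsPeriodic H γ T ∧ ∀ t, H (γ t) = c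

/-- the function `F (x, G y)` on the product -/
def comp {S T : Sys.{u}} (F : S.M × ℝ → ℝ) (G : T.M → ℝ) : (S.prod T).M → ℝ :=
  fun p : S.M × T.M => F (p.1, G p.2)

end Pool.Agent.H21.WS
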