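import Mathlib

/-! The derivative of a determinant and a matrix identity. -/

open Finset Matrix

namespace Pool.Agent.H21.WS

variable {n : ℕ}

/-- **The derivative of the determinant.** -/
lemma hasFDerivAt_det {E : Type*} [NormedAddCommGroup E] [NormedSpace ℝ E]
    {A : E → Matrix (Fin n) (Fin n) ℝ} {A' : Fin n → Fin n → E →L[ℝ] ℝ} {z : E}
    (h : ∀ i j, HasFDerivAt (fun z => A z i j) (A' i j) z) :
    HasFDerivAt (fun z => (A z).det) (∑ i, ∑ k, (A z).adjugate i k • A' k i) z := by
  have h1 : HasFDerivAt (fun z => (A z).det)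
      (∑ σ : Equiv.Perm (Fin n), ((Equiv.Perm.sign σ : ℤ) : ℝ) •
        ∑ i, (∏ j ∈ univ.erase i, A z (σ j) j) • A' (σ i) i) z := by
    have e : (fun z => (A z).det) = fun z => ∑ σ : Equiv.Perm (Fin n),
        ((Equiv.Perm.sign σ : ℤ) : ℝ) * ∏ i, A z (σ i) i := by
      ext1 z
      rw [Matrix.det_apply']
    rw [e]
    refine HasFDerivAt.fun_sum fun σ _ => ?_
    exact (HasFDerivAt.finset_prod (u := univ) (g := fun i z => A z (σ i) i)
      fun i _ => h (σ i) i).const_mul _
  convert h1 using 1
  ext v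
  simp only [ContinuousLinearMap.sum_apply, ContinuousLinearMap.smul_apply, smul_eq_mul]
  have h2 : ∀ i, ∑ k, (A z).adjugate i k * A' k i v =
      ((A z).updateCol i (fun k => A' k i v)).det := by
    intro i
    rw [← cramer_apply, cramer_eq_adjugate_mulVec]
    rfl
  simp only [h2, Matrix.det_apply', Finset.mul_sum]
  rw [Finset.sum_comm]
  refine Finset.sum_congr rfl fun σ _ => Finset.sum_congr rfl fun i _ => ?_
  rw [← Finset.mul_prod_erase univ _ (Finset.mem_univ i)]
  have h3 : ∏ x ∈ univ.erase i, ((A z).updateCol i fun k => A' k i v) (σ x) x =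
      ∏ j ∈ univ.erase i, A z (σ j) j := by
    refine Finset.prod_congr rfl fun j hj => ?_
    rw [updateCol_ne (Finset.ne_of_mem_erase hj)]
  rw [h3, updateCol_self]
  ring

/-- The divergence identity. -/
lemma div_identity {A N : Matrix (Fin n) (Fin n) ℝ} (hAN : A * N = 1)
    (hA : ∀ i j, A i j = - A j i) {D : Fin n → Fin n → ℝ} (hD : ∀ i j, A i j = D i j - D j i)
    {S : Fin n → Fin n → Fin n → ℝ} (hS : ∀ k i j, S k i j = S i k j)
    {y : Fin n → ℝ} {dy : Fin n → Fin n → ℝ}
    (hdy : ∀ k j, ∑ i, dy k i * A i j + ∑ i, y i * (S k i j - S k j i) = D k j) :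
    ∑ i, dy i i + 1 / 2 * ∑ k, y k * ∑ i, ∑ j, N i j * (S k j i - S k i j) = n / 2 := by
  have hNA : N * A = 1 := mul_eq_one_comm.1 hAN
  have hN : ∀ i j, N i j = - N j i := by
    have hAt : Aᵀ = -A := by
      ext i j
      simp only [transpose_apply, Matrix.neg_apply]
      rw [hA j i]
    have h1 : A * (-Nᵀ) = 1 := by
      have h2 : (N * A)ᵀ = 1 := by rw [hNA, transpose_one]
      rw [transpose_mul, hAt] at h2
      rw [Matrix.mul_neg, ← Matrix.neg_mul]
      exact h2
    have h3 : N = -Nᵀ := by
      calc N = N * 1 := (Matrix.mul_one N).symm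
        _ = N * (A * (-Nᵀ)) := by rw [h1]
        _ = (N * A) * (-Nᵀ) := by rw [Matrix.mul_assoc]
        _ = -Nᵀ := by rw [hNA, Matrix.one_mul]
    intro i j
    have := congrFun (congrFun h3 i) j
    simpa using this
  have hAN' : ∀ i j, ∑ k, A i k * N k j = if i = j then 1 else 0 := by
    intro i j
    have := congrFun (congrFun hAN i) j
    rw [Matrix.mul_apply, Matrix.one_apply] at this
    exact this
  -- solve for dy
  have h1 : ∀ k l, dy k l = ∑ j, (D k j - ∑ i, y i * (S k i j - S k j i)) * N j l := by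
    intro k l
    have h2 : ∀ j, D k j - ∑ i, y i * (S k i j - S k j i) = ∑ i, dy k i * A i j := by
      intro j
      rw [← hdy k j]; ring
    simp only [h2, Finset.sum_mul]
    rw [Finset.sum_comm]
    have h3 : ∀ i, ∑ j, dy k i * A i j * N j l = dy k i * if i = l then 1 else 0 := by
      intro i
      rw [← hAN', Finset.mul_sum]
      exact Finset.sum_congr rfl fun j _ => by ring
    simp only [h3]
    simp
  -- the trace of the first part
  have h4 : ∑ i, ∑ j, D i j * N j i = n / 2 := by
    have h5 : ∑ i, ∑ j, A i j * N j i = n := by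
      have : ∀ i, ∑ j, A i j * N j i = 1 := by
        intro i; rw [hAN']; simp
      simp [this]
    have h6 : ∑ i, ∑ j, D j i * N j i = - ∑ i, ∑ j, D i j * N j i := by
      rw [Finset.sum_comm, ← Finset.sum_neg_distrib]
      refine Finset.sum_congr rfl fun i _ => ?_
      rw [← Finset.sum_neg_distrib]
      refine Finset.sum_congr rfl fun j _ => ?_
      rw [hN i j]; ring
    have h7 : ∑ i, ∑ j, A i j * N j i = ∑ i, ∑ j, D i j * N j i - ∑ i, ∑ j, D j i * N j i := by
      rw [← Finset.sum_sub_distrib]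
      refine Finset.sum_congr rfl fun i _ => ?_
      rw [← Finset.sum_sub_distrib]
      refine Finset.sum_congr rfl fun j _ => ?_
      rw [hD i j]; ring
    rw [h6] at h7
    linarith
  -- the second part
  set Q : ℝ := ∑ i, ∑ j, (∑ k, y k * (S i k j - S i j k)) * N j i with hQ
  have h8 : ∑ i, dy i i = n / 2 - Q := by
    simp only [h1]
    rw [← h4, hQ, ← Finset.sum_sub_distrib]
    refine Finset.sum_congr rfl fun i _ => ?_
    rw [← Finset.sum_sub_distrib]
    refine Finset.sum_congr rfl fun j _ => ?_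
    ring
  -- rewriting `Q`
  have hQ1 : Q = ∑ k, y k * ∑ i, ∑ j, N j i * (S i k j - S i j k) := by
    rw [hQ]
    simp only [Finset.sum_mul, Finset.mul_sum]
    have e1 : ∀ i, ∑ j, ∑ k, y k * (S i k j - S i j k) * N j i =
        ∑ k, ∑ j, y k * (S i k j - S i j k) * N j i := fun i => Finset.sum_comm
    simp only [e1]
    rw [Finset.sum_comm]
    refine Finset.sum_congr rfl fun k _ => Finset.sum_congr rfl fun i _ =>
      Finset.sum_congr rfl fun j _ => by ring
  have h9 : ∀ k, ∑ i, ∑ j, N i j * (S k j i - S k i j) =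
      2 * ∑ i, ∑ j, N j i * (S i k j - S i j k) := by
    intro k
    -- `N_ij (S k j i - S k i j)`; use `S k j i = S j k i`
    have e1 : ∀ i j, N i j * (S k j i - S k i j) =
        N i j * (S j k i - S j i k) + N i j * (S i j k - S i k j) := by
      intro i j
      rw [hS k j i, hS k i j, hS j i k]
      ring
    simp only [e1, Finset.sum_add_distrib]
    have e2 : ∑ i, ∑ j, N i j * (S j k i - S j i k) =
        ∑ i, ∑ j, N j i * (S i k j - S i j k) := by
      rw [Finset.sum_comm]
    have e3 : ∑ i, ∑ j, N i j * (S i j k - S i k j) =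
        ∑ i, ∑ j, N j i * (S i k j - S i j k) := by
      refine Finset.sum_congr rfl fun i _ => Finset.sum_congr rfl fun j _ => ?_
      rw [hN i j]; ring
    rw [e2, e3]
    ring
  have h10 : 1 / 2 * ∑ k, y k * ∑ i, ∑ j, N i j * (S k j i - S k i j) = Q := by
    rw [hQ1, Finset.mul_sum]
    refine Finset.sum_congr rfl fun k _ => ?_
    rw [h9 k]; ring
  rw [h8, h10]
  ring

end Pool.Agent.H21.WS
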