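import Mathlib
import Pool.Agent.H21.WS.Mat

/-! The divergence of the Liouville field of a one-form with nondegenerate derivative, on an open set
of a vector space. -/

open Finset Matrix MeasureTheory Set Module
open scoped Topology ContDiff

noncomputable section

namespace Pool.Agent.H21.WS

variable {E : Type*} [NormedAddCommGroup E] [NormedSpace ℝ E] [FiniteDimensional ℝ E]

/-- the derivative of the one-form `α` -/
def dB (α : E → E →L[ℝ] ℝ) (z : E) : E →L[ℝ] E →L[ℝ] ℝ := fderiv ℝ α z - (fderiv ℝ α z).flip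

omit [FiniteDimensional ℝ E] in
lemma dB_apply (α : E → E →L[ℝ] ℝ) (z u v : E) :
    dB α z u v = fderiv ℝ α z u v - fderiv ℝ α z v u := rfl

/-- the matrix of a bilinear form -/
def matB (B : E →L[ℝ] E →L[ℝ] ℝ) : Matrix (Fin (finrank ℝ E)) (Fin (finrank ℝ E)) ℝ :=
  Matrix.of fun i j => B (finBasis ℝ E i) (finBasis ℝ E j)

lemma matB_apply (B : E →L[ℝ] E →L[ℝ] ℝ) (i j : Fin (finrank ℝ E)) :
    matB B i j = B (finBasis ℝ E i) (finBasis ℝ E j) := rfl

/-- the square root of the absolute value of the determinant of a bilinear form -/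
def dens (B : E →L[ℝ] E →L[ℝ] ℝ) : ℝ := √|(matB B).det|

lemma dens_pull {B1 B2 : E →L[ℝ] E →L[ℝ] ℝ} {L : E →L[ℝ] E}
    (h : ∀ u v, B1 u v = B2 (L u) (L v)) : dens B1 = |L.det| * dens B2 := by
  set b := finBasis ℝ E with hb
  have h1 : matB B1 = (LinearMap.toMatrix b b (L : E →ₗ[ℝ] E))ᵀ * matB B2 *
      LinearMap.toMatrix b b (L : E →ₗ[ℝ] E) := by
    ext i j
    have e : ∀ k, L (b k) = ∑ l, LinearMap.toMatrix b b (L : E →ₗ[ℝ] E) l k • b l := by
      intro k
      conv_lhs => rw [← b.sum_repr (L (b k))]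
      refine Finset.sum_congr rfl fun l _ => ?_
      rw [LinearMap.toMatrix_apply]
      rfl
    rw [matB_apply, h, ← hb, e i, e j]
    simp only [map_sum, map_smul, _root_.sum_apply, _root_.smul_apply, smul_eq_mul,
      Matrix.mul_apply, transpose_apply, Finset.sum_mul, Finset.mul_sum, matB_apply]
    refine Finset.sum_congr rfl fun k _ => Finset.sum_congr rfl fun l _ => ?_
    first | rfl | ring
  have h2 : (matB B1).det = (L.det) ^ 2 * (matB B2).det := by
    rw [h1, det_mul, det_mul, det_transpose]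
    have : (LinearMap.toMatrix b b (L : E →ₗ[ℝ] E)).det = L.det := by
      rw [LinearMap.det_toMatrix]
    rw [this]; ring
  unfold dens
  rw [h2, abs_mul, Real.sqrt_mul (abs_nonneg _), abs_pow, Real.sqrt_sq (abs_nonneg _)]

lemma det_matB_ne_zero {B : E →L[ℝ] E →L[ℝ] ℝ} (h : ∀ u, (∀ v, B u v = 0) → u = 0) :
    (matB B).det ≠ 0 := by
  intro h0
  obtain ⟨w, hw, hw0⟩ := Matrix.exists_vecMul_eq_zero_iff.2 h0
  apply hw
  have h1 : (∑ i, w i • finBasis ℝ E i) = 0 := by
    apply h
    have h2 : B (∑ i, w i • finBasis ℝ E i) = 0 := by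
      apply ContinuousLinearMap.coe_injective
      apply (finBasis ℝ E).ext
      intro j
      have := congrFun hw0 j
      simp only [Matrix.vecMul, dotProduct, matB_apply, Pi.zero_apply] at this
      simp only [map_sum, map_smul, ContinuousLinearMap.coe_coe, _root_.sum_apply,
        _root_.smul_apply, smul_eq_mul]
      simpa using this
    intro v
    rw [h2]; rfl
  have h3 := (Fintype.linearIndependent_iff.1 (finBasis ℝ E).linearIndependent) w h1
  funext i
  exact h3 i

lemma dens_pos {B : E →L[ℝ] E →L[ℝ] ℝ} (h : ∀ u, (∀ v, B u v = 0) → u = 0) : 0 < dens B :=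
  Real.sqrt_pos.2 (abs_pos.2 (det_matB_ne_zero h))

section smooth

variable {O : Set E} {α : E → E →L[ℝ] ℝ}

lemma contDiffOn_dB (hO : IsOpen O) (hα : ContDiffOn ℝ ∞ α O) : ContDiffOn ℝ ∞ (dB α) O := by
  have h1 : ContDiffOn ℝ ∞ (fderiv ℝ α) O := hα.fderiv_of_isOpen hO (by simp)
  have h2 : ContDiffOn ℝ ∞ (fun z => (fderiv ℝ α z).flip) O := by
    rw [contDiffOn_clm_apply]
    intro u
    rw [contDiffOn_clm_apply]
    intro v
    exact (h1.clm_apply contDiffOn_const).clm_apply contDiffOn_const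
  exact h1.sub h2

omit [FiniteDimensional ℝ E] in
lemma contDiffOn_mat {k : ℕ} {m : ℕ∞ω} {A : E → Matrix (Fin k) (Fin k) ℝ}
    (hA : ∀ i j, ContDiffOn ℝ m (fun z => A z i j) O) : ContDiffOn ℝ m (fun z => (A z).det) O := by
  simp only [Matrix.det_apply']
  refine ContDiffOn.sum fun σ _ => ?_
  exact contDiffOn_const.mul (contDiffOn_prod fun i _ => hA _ _)

omit [FiniteDimensional ℝ E] in
lemma contDiffOn_adj {k : ℕ} {m : ℕ∞ω} {A : E → Matrix (Fin k) (Fin k) ℝ}
    (hA : ∀ i j, ContDiffOn ℝ m (fun z => A z i j) O) (i j : Fin k) :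
    ContDiffOn ℝ m (fun z => (A z).adjugate i j) O := by
  simp only [Matrix.adjugate_apply]
  refine contDiffOn_mat fun a c => ?_
  by_cases h : a = j
  · subst h
    simp only [updateRow_self]
    exact contDiffOn_const
  · simp only [updateRow_ne h]
    exact hA _ _

lemma contDiffOn_matB (hO : IsOpen O) (hα : ContDiffOn ℝ ∞ α O) (i j : Fin (finrank ℝ E)) :
    ContDiffOn ℝ ∞ (fun z => matB (dB α z) i j) O := by
  simp only [matB_apply]
  exact ((contDiffOn_dB hO hα).clm_apply contDiffOn_const).clm_apply contDiffOn_const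

lemma contDiffOn_dens (hO : IsOpen O) (hα : ContDiffOn ℝ ∞ α O)
    (hnd : ∀ z ∈ O, ∀ u, (∀ v, dB α z u v = 0) → u = 0) :
    ContDiffOn ℝ ∞ (fun z => dens (dB α z)) O := by
  intro z hz
  have h1 := (contDiffOn_mat (contDiffOn_matB hO hα)).contDiffAt (hO.mem_nhds hz)
  have h2 : (matB (dB α z)).det ≠ 0 := det_matB_ne_zero (hnd z hz)
  exact ((h1.abs h2).sqrt (abs_ne_zero.2 h2)).contDiffWithinAt

end smooth

lemma hasDerivAt_sqrt_abs {x : ℝ} (hx : x ≠ 0) :
    HasDerivAt (fun x => √|x|) (√|x| / (2 * x)) x := by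
  have h1 := (hasDerivAt_abs hx).sqrt (abs_ne_zero.2 hx)
  convert h1 using 1
  have h2 : √|x| ≠ 0 := Real.sqrt_ne_zero'.2 (abs_pos.2 hx)
  have h3 : √|x| * √|x| = |x| := Real.mul_self_sqrt (abs_nonneg _)
  rw [div_eq_div_iff (by simpa using hx) (by simpa using h2)]
  rcases lt_or_gt_of_ne hx with h | h
  · rw [sign_neg h]
    have : √|x| * (2 * √|x|) = 2 * (√|x| * √|x|) := by ring
    rw [this, h3, abs_of_neg h]
    simp
  · rw [sign_pos h]
    have : √|x| * (2 * √|x|) = 2 * (√|x| * √|x|) := by ring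
    rw [this, h3, abs_of_pos h]
    simp

end Pool.Agent.H21.WS
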