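import Mathlib
import Pool.Agent.H21.WS.Loc

/-! The divergence of the Liouville field of a one-form with nondegenerate derivative, on an open set
of a vector space: integration. -/

open Finset Matrix MeasureTheory Set Module
open scoped Topology ContDiff

noncomputable section

namespace Pool.Agent.H21.WS

variable {E : Type*} [NormedAddCommGroup E] [NormedSpace ℝ E] [FiniteDimensional ℝ E]

/-- the integral of a derivative of a function with compact support is zero -/
lemma integral_fderiv_zero [MeasurableSpace E] [BorelSpace E] {μ : Measure E}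
    [μ.IsAddHaarMeasure] {U : E → ℝ} (hU : ContDiff ℝ 1 U) (hc : HasCompactSupport U) (v : E) :
    ∫ z, fderiv ℝ U z v ∂μ = 0 := by
  have h1 : Integrable U μ := hU.continuous.integrable_of_hasCompactSupport hc
  have h2 : Integrable (fun z => fderiv ℝ U z v) μ := by
    refine Continuous.integrable_of_hasCompactSupport ?_ ?_
    · exact (hU.continuous_fderiv (by simp)).clm_apply continuous_const
    · exact (hc.fderiv (𝕜 := ℝ)).mono' (fun z hz => by
        apply subset_tsupport
        intro h0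
        apply hz
        show fderiv ℝ U z v = 0
        rw [h0]; rfl)
  have h3 := integral_mul_fderiv_eq_neg_fderiv_mul_of_integrable (μ := μ) (𝕜 := ℝ)
    (f := U) (g := fun _ => (1 : ℝ)) (v := v) (by simpa using h2) (by simp) (by simpa using h1)
    (fun x _ => (hU.differentiable (by simp)) x) (fun x _ => differentiableAt_const _)
  simp only [fderiv_fun_const, Pi.zero_apply, mul_one] at h3
  simp only [_root_.zero_apply, mul_zero, integral_zero] at h3
  linarith

variable {O : Set E} {α : E → E →L[ℝ] ℝ}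

/-- the components of the Liouville field -/
def yc (α : E → E →L[ℝ] ℝ) (i : Fin (finrank ℝ E)) (z : E) : ℝ :=
  ∑ j, α z (finBasis ℝ E j) * ((matB (dB α z)).det⁻¹ * (matB (dB α z)).adjugate j i)

lemma contDiffOn_yc (hO : IsOpen O) (hα : ContDiffOn ℝ ∞ α O)
    (hnd : ∀ z ∈ O, ∀ u, (∀ v, dB α z u v = 0) → u = 0) (i : Fin (finrank ℝ E)) :
    ContDiffOn ℝ ∞ (yc α i) O := by
  unfold yc
  refine ContDiffOn.sum fun j _ => ?_
  refine (hα.clm_apply contDiffOn_const).mul (ContDiffOn.mul ?_ ?_)
  · exact (contDiffOn_mat (contDiffOn_matB hO hα)).inv fun z hz => det_matB_ne_zero (hnd z hz)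
  · exact contDiffOn_adj (contDiffOn_matB hO hα) _ _

/-- the defining property of the components -/
lemma yc_eq {z : E} (hnd : ∀ u, (∀ v, dB α z u v = 0) → u = 0) (j : Fin (finrank ℝ E)) :
    ∑ i, yc α i z * matB (dB α z) i j = α z (finBasis ℝ E j) := by
  set A := matB (dB α z) with hA
  have hδ : A.det ≠ 0 := det_matB_ne_zero hnd
  have h1 : A.adjugate * A = A.det • (1 : Matrix _ _ ℝ) := adjugate_mul A
  have h2 : ∀ k l, ∑ i, A.adjugate k i * A i l = if k = l then A.det else 0 := by
    intro k l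
    have := congrFun (congrFun h1 k) l
    rw [Matrix.mul_apply] at this
    rw [this]
    simp [Matrix.one_apply]
  unfold yc
  simp only [Finset.sum_mul]
  rw [Finset.sum_comm]
  have h3 : ∀ k, ∑ i, α z (finBasis ℝ E k) * ((matB (dB α z)).det⁻¹ *
      (matB (dB α z)).adjugate k i) * A i j =
      α z (finBasis ℝ E k) * if k = j then 1 else 0 := by
    intro k
    rw [← hA]
    have : ∀ i, α z (finBasis ℝ E k) * (A.det⁻¹ * A.adjugate k i) * A i j =
        α z (finBasis ℝ E k) * A.det⁻¹ * (A.adjugate k i * A i j) := fun i => by ring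
    simp only [this]
    rw [← Finset.mul_sum, h2]
    split_ifs
    · field_simp
    · simp
  simp only [h3]
  simp

/-- the Liouville field in coordinates -/
lemma repr_eq_yc {z : E} (hnd : ∀ u, (∀ v, dB α z u v = 0) → u = 0) {y : E}
    (hy : ∀ v, dB α z y v = α z v) : y = ∑ i, yc α i z • finBasis ℝ E i := by
  have h1 : y - ∑ i, yc α i z • finBasis ℝ E i = 0 := by
    apply hnd
    have h2 : dB α z (y - ∑ i, yc α i z • finBasis ℝ E i) = 0 := by
      apply ContinuousLinearMap.coe_injective
      apply (finBasis ℝ E).ext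
      intro j
      have := yc_eq hnd j
      simp only [matB_apply] at this
      simp only [map_sub, map_sum, map_smul, ContinuousLinearMap.coe_coe, _root_.sub_apply,
        _root_.sum_apply, _root_.smul_apply, smul_eq_mul, hy, this]
      simp
    intro v
    rw [h2]; rfl
  exact sub_eq_zero.1 h1

/-- **The divergence of the Liouville field**, pointwise. -/
lemma div_pointwise (hO : IsOpen O) (hα : ContDiffOn ℝ ∞ α O)
    (hnd : ∀ z ∈ O, ∀ u, (∀ v, dB α z u v = 0) → u = 0) {f : E → ℝ} {z : E} (hz : z ∈ O)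
    (hf : DifferentiableAt ℝ f z) {y : E} (hy : ∀ v, dB α z y v = α z v) :
    ∑ i, fderiv ℝ (fun z => f z * dens (dB α z) * yc α i z) z (finBasis ℝ E i) =
      (fderiv ℝ f z y + (finrank ℝ E : ℝ) / 2 * f z) * dens (dB α z) := by
  set b := finBasis ℝ E with hb
  have hOz : O ∈ 𝓝 z := hO.mem_nhds hz
  -- the coordinates of the form
  let D : Fin (finrank ℝ E) → Fin (finrank ℝ E) → E → ℝ := fun i j z => fderiv ℝ (fun z => α z (b j)) z (b i)
  have hαj : ∀ j, ContDiffOn ℝ ∞ (fun z => α z (b j)) O := fun j =>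
    hα.clm_apply contDiffOn_const
  have hDs : ∀ i j, ContDiffOn ℝ ∞ (D i j) O := fun i j =>
    ((hαj j).fderiv_of_isOpen hO (by simp)).clm_apply contDiffOn_const
  have hD0 : ∀ i j, ∀ z' ∈ O, fderiv ℝ α z' (b i) (b j) = D i j z' := by
    intro i j z' hz'
    have h1 : HasFDerivAt α (fderiv ℝ α z') z' :=
      ((hα.contDiffAt (hO.mem_nhds hz')).differentiableAt (by simp)).hasFDerivAt
    have h2 : HasFDerivAt (fun z => α z (b j))
        ((ContinuousLinearMap.apply ℝ ℝ (b j)).comp (fderiv ℝ α z')) z' :=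
      (ContinuousLinearMap.apply ℝ ℝ (b j)).hasFDerivAt.comp z' h1
    show _ = fderiv ℝ (fun z => α z (b j)) z' (b i)
    rw [h2.fderiv]; rfl
  have hAD : ∀ i j, ∀ z' ∈ O, matB (dB α z') i j = D i j z' - D j i z' := by
    intro i j z' hz'
    rw [matB_apply, dB_apply, ← hb, hD0 i j z' hz', hD0 j i z' hz']
  let S : Fin (finrank ℝ E) → Fin (finrank ℝ E) → Fin (finrank ℝ E) → ℝ := fun k i j => fderiv ℝ (D i j) z (b k)
  have hDd : ∀ i j, HasFDerivAt (D i j) (fderiv ℝ (D i j) z) z := fun i j =>
    (((hDs i j).contDiffAt hOz).differentiableAt (by simp)).hasFDerivAt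
  have hSs : ∀ k i j, S k i j = S i k j := by
    intro k i j
    have h1 : ContDiffAt ℝ ∞ (fun z => α z (b j)) z := (hαj j).contDiffAt hOz
    have h2 := h1.isSymmSndFDerivAt (by
      simp only [minSmoothness_of_isRCLikeNormedField]; exact ENat.LEInfty.out)
    have h3 : HasFDerivAt (fderiv ℝ (fun z => α z (b j)))
        (fderiv ℝ (fderiv ℝ (fun z => α z (b j))) z) z :=
      ((h1.fderiv_right (m := ∞) (by simp)).differentiableAt (by simp)).hasFDerivAt
    have h4 : ∀ i k, fderiv ℝ (D i j) z (b k) =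
        fderiv ℝ (fderiv ℝ (fun z => α z (b j))) z (b k) (b i) := by
      intro i k
      have h5 : HasFDerivAt (D i j) ((ContinuousLinearMap.apply ℝ ℝ (b i)).comp
          (fderiv ℝ (fderiv ℝ (fun z => α z (b j))) z)) z :=
        (ContinuousLinearMap.apply ℝ ℝ (b i)).hasFDerivAt.comp z h3
      rw [h5.fderiv]; rfl
    show fderiv ℝ (D i j) z (b k) = fderiv ℝ (D k j) z (b i)
    rw [h4, h4]
    exact h2 _ _
  -- the matrix and its derivative
  have hA' : ∀ i j, HasFDerivAt (fun z => matB (dB α z) i j)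
      (fderiv ℝ (D i j) z - fderiv ℝ (D j i) z) z := by
    intro i j
    refine ((hDd i j).sub (hDd j i)).congr_of_eventuallyEq ?_
    filter_upwards [hOz] with z' hz'
    exact hAD i j z' hz'
  set A := matB (dB α z) with hA
  have hδ0 : A.det ≠ 0 := det_matB_ne_zero (hnd z hz)
  have hδ := hasFDerivAt_det hA'
  have hr : HasFDerivAt (fun z => dens (dB α z)) ((√|A.det| / (2 * A.det)) •
      ∑ i, ∑ k, A.adjugate i k • (fderiv ℝ (D k i) z - fderiv ℝ (D i k) z)) z :=
    HasDerivAt.comp_hasFDerivAt (h₂ := fun x => √|x|) z (hasDerivAt_sqrt_abs hδ0) hδ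
  -- the components of the field
  have hyd : ∀ i, HasFDerivAt (yc α i) (fderiv ℝ (yc α i) z) z := fun i =>
    (((contDiffOn_yc hO hα hnd i).contDiffAt hOz).differentiableAt (by simp)).hasFDerivAt
  let N : Matrix (Fin (finrank ℝ E)) (Fin (finrank ℝ E)) ℝ := A.det⁻¹ • A.adjugate
  have hAN : A * N = 1 := by
    show A * (A.det⁻¹ • A.adjugate) = 1
    rw [Matrix.mul_smul, mul_adjugate, smul_smul, inv_mul_cancel₀ hδ0, one_smul]
  have hdy : ∀ k j, ∑ i, fderiv ℝ (yc α i) z (b k) * A i j +
      ∑ i, yc α i z * (S k i j - S k j i) = D k j z := by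
    intro k j
    have h1 : HasFDerivAt (fun z => ∑ i, yc α i z * matB (dB α z) i j)
        (∑ i, (yc α i z • (fderiv ℝ (D i j) z - fderiv ℝ (D j i) z) +
          A i j • fderiv ℝ (yc α i) z)) z :=
      HasFDerivAt.fun_sum fun i _ => (hyd i).mul (hA' i j)
    have h2 : HasFDerivAt (fun z => α z (b j)) (fderiv ℝ (fun z => α z (b j)) z) z :=
      (((hαj j).contDiffAt hOz).differentiableAt (by simp)).hasFDerivAt
    have h3 : (fun z => ∑ i, yc α i z * matB (dB α z) i j) =ᶠ[𝓝 z] fun z => α z (b j) := by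
      filter_upwards [hOz] with z' hz'
      exact yc_eq (hnd z' hz') j
    have h4 := DFunLike.congr_fun ((h1.congr_of_eventuallyEq h3.symm).unique h2) (b k)
    simp only [_root_.sum_apply, _root_.add_apply, _root_.smul_apply, _root_.sub_apply,
      smul_eq_mul] at h4
    rw [show D k j z = fderiv ℝ (fun z => α z (b j)) z (b k) from rfl, ← h4,
      ← Finset.sum_add_distrib]
    refine Finset.sum_congr rfl fun i _ => ?_
    show _ = yc α i z * (S k i j - S k j i) + A i j * fderiv ℝ (yc α i) z (b k)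
    ring
  have key := div_identity (A := A) (N := N) hAN
    (fun i j => by rw [hA, hAD i j z hz, hAD j i z hz]; ring)
    (D := fun i j => D i j z) (fun i j => by rw [hA, hAD i j z hz]) (S := S) hSs
    (y := fun i => yc α i z) (dy := fun k i => fderiv ℝ (yc α i) z (b k)) hdy
  -- the product rule
  have hprod : ∀ i, fderiv ℝ (fun z => f z * dens (dB α z) * yc α i z) z (b i) =
      fderiv ℝ f z (b i) * dens (dB α z) * yc α i z +
      f z * dens (dB α z) * (1 / 2 * (yc α i z * ∑ k, ∑ l, N k l * (S i l k - S i k l))) +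
      f z * dens (dB α z) * fderiv ℝ (yc α i) z (b i) := by
    intro i
    have h1 : HasFDerivAt (fun z => f z * dens (dB α z) * yc α i z) _ z :=
      (hf.hasFDerivAt.mul hr).mul (hyd i)
    rw [h1.fderiv]
    simp only [_root_.add_apply, _root_.smul_apply, _root_.sum_apply, _root_.sub_apply,
      smul_eq_mul, Pi.mul_apply]
    have h2 : ∑ k, ∑ l, A.adjugate k l * (fderiv ℝ (D l k) z (b i) - fderiv ℝ (D k l) z (b i)) =
        A.det * ∑ k, ∑ l, N k l * (S i l k - S i k l) := by
      rw [Finset.mul_sum]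
      refine Finset.sum_congr rfl fun k _ => ?_
      rw [Finset.mul_sum]
      refine Finset.sum_congr rfl fun l _ => ?_
      show _ = A.det * ((A.det⁻¹ * A.adjugate k l) *
        (fderiv ℝ (D l k) z (b i) - fderiv ℝ (D k l) z (b i)))
      field_simp
    rw [h2]
    have h3 : √|A.det| = dens (dB α z) := rfl
    rw [h3]
    field_simp
    ring
  simp only [hprod]
  rw [Finset.sum_add_distrib, Finset.sum_add_distrib]
  have e1 : ∑ i, fderiv ℝ f z (b i) * dens (dB α z) * yc α i z =
      fderiv ℝ f z y * dens (dB α z) := by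
    conv_rhs => rw [repr_eq_yc (hnd z hz) hy]
    rw [map_sum, Finset.sum_mul]
    refine Finset.sum_congr rfl fun i _ => ?_
    rw [map_smul, smul_eq_mul, ← hb]; ring
  have e2 : ∑ i, f z * dens (dB α z) * (1 / 2 * (yc α i z *
      ∑ k, ∑ l, N k l * (S i l k - S i k l))) =
      f z * dens (dB α z) * (1 / 2 * ∑ i, yc α i z * ∑ k, ∑ l, N k l * (S i l k - S i k l)) := by
    rw [Finset.mul_sum, Finset.mul_sum]
  have e3 : ∑ i, f z * dens (dB α z) * fderiv ℝ (yc α i) z (b i) =
      f z * dens (dB α z) * ∑ i, fderiv ℝ (yc α i) z (b i) := by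
    rw [Finset.mul_sum]
  rw [e1, e2, e3]
  have key' : ∑ i, fderiv ℝ (yc α i) z (b i) + 1 / 2 * ∑ i, yc α i z *
      ∑ k, ∑ l, N k l * (S i l k - S i k l) = (finrank ℝ E : ℝ) / 2 := key
  linear_combination (f z * dens (dB α z)) * key'

omit [FiniteDimensional ℝ E] in
lemma contDiff_indicator {m : ℕ∞ω} (hO : IsOpen O) {g : E → ℝ} (hg : ContDiffOn ℝ m g O)
    {K : Set E} (hK : IsCompact K) (hgK : ∀ z ∈ O, z ∉ K → g z = 0) (hKO : K ⊆ O) :
    ContDiff ℝ m (O.indicator g) := by
  rw [contDiff_iff_contDiffAt]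
  intro z
  by_cases hz : z ∈ O
  · refine (hg.contDiffAt (hO.mem_nhds hz)).congr_of_eventuallyEq ?_
    filter_upwards [hO.mem_nhds hz] with z' hz'
    exact indicator_of_mem hz' g
  · have hzK : Kᶜ ∈ 𝓝 z := hK.isClosed.isOpen_compl.mem_nhds fun h => hz (hKO h)
    refine (contDiffAt_const (c := (0 : ℝ))).congr_of_eventuallyEq ?_
    filter_upwards [hzK] with z' hz'
    by_cases h : z' ∈ O
    · rw [indicator_of_mem h, hgK z' h hz']
    · rw [indicator_of_notMem h]

omit [NormedSpace ℝ E] [FiniteDimensional ℝ E] in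
lemma hasCompactSupport_indicator {g : E → ℝ}
    {K : Set E} (hK : IsCompact K) (hgK : ∀ z ∈ O, z ∉ K → g z = 0) :
    HasCompactSupport (O.indicator g) := by
  refine HasCompactSupport.intro hK fun z hz => ?_
  by_cases h : z ∈ O
  · rw [indicator_of_mem h, hgK z h hz]
  · rw [indicator_of_notMem h]

/-- **The integral of the divergence of the Liouville field.** -/
theorem local_div [MeasurableSpace E] [BorelSpace E] {μ : Measure E} [μ.IsAddHaarMeasure]
    (hO : IsOpen O) (hα : ContDiffOn ℝ ∞ α O)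
    (hnd : ∀ z ∈ O, ∀ u, (∀ v, dB α z u v = 0) → u = 0) {f : E → ℝ} (hf : ContDiffOn ℝ ∞ f O)
    {K : Set E} (hK : IsCompact K) (hKO : K ⊆ O) (hfK : ∀ z ∈ O, z ∉ K → f z = 0)
    {Y : E → E} (hY : ∀ z ∈ O, ∀ v, dB α z (Y z) v = α z v) :
    ∫ z in O, (fderiv ℝ f z (Y z) + (finrank ℝ E : ℝ) / 2 * f z) * dens (dB α z) ∂μ = 0 := by
  set b := finBasis ℝ E with hb
  let U : Fin (finrank ℝ E) → E → ℝ := fun i =>
    O.indicator (fun z => f z * dens (dB α z) * yc α i z)
  have hU0 : ∀ i, ContDiffOn ℝ ∞ (fun z => f z * dens (dB α z) * yc α i z) O := fun i =>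
    (hf.mul (contDiffOn_dens hO hα hnd)).mul (contDiffOn_yc hO hα hnd i)
  have hUK : ∀ i, ∀ z ∈ O, z ∉ K → f z * dens (dB α z) * yc α i z = 0 := by
    intro i z hz hzK
    rw [hfK z hz hzK]; ring
  have hU : ∀ i, ContDiff ℝ ∞ (U i) := fun i => contDiff_indicator hO (hU0 i) hK (hUK i) hKO
  have hUc : ∀ i, HasCompactSupport (U i) := fun i => hasCompactSupport_indicator hK (hUK i)
  have h1 : ∀ i, ∫ z, fderiv ℝ (U i) z (b i) ∂μ = 0 := fun i =>
    integral_fderiv_zero ((hU i).of_le (by simp)) (hUc i) _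
  have h2 : ∀ i, Integrable (fun z => fderiv ℝ (U i) z (b i)) μ := by
    intro i
    refine Continuous.integrable_of_hasCompactSupport ?_ ?_
    · exact ((hU i).continuous_fderiv (by simp)).clm_apply continuous_const
    · exact ((hUc i).fderiv (𝕜 := ℝ)).mono' (fun z hz => by
        apply subset_tsupport
        intro h0
        apply hz
        show fderiv ℝ (U i) z (b i) = 0
        rw [h0]; rfl)
  have h3 : ∫ z, ∑ i, fderiv ℝ (U i) z (b i) ∂μ = 0 := by
    rw [integral_finsetSum _ fun i _ => h2 i]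
    simp [h1]
  rw [← integral_indicator hO.measurableSet, ← h3]
  congr 1
  ext1 z
  by_cases hz : z ∈ O
  · rw [indicator_of_mem hz, ← div_pointwise hO hα hnd hz
      ((hf.contDiffAt (hO.mem_nhds hz)).differentiableAt (by simp)) (hY z hz)]
    refine Finset.sum_congr rfl fun i _ => ?_
    have : (fun z => f z * dens (dB α z) * yc α i z) =ᶠ[𝓝 z] U i := by
      filter_upwards [hO.mem_nhds hz] with z' hz'
      simp only [U, indicator_of_mem hz']
    rw [this.fderiv_eq]
  · rw [indicator_of_notMem hz]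
    symm
    refine Finset.sum_eq_zero fun i _ => ?_
    have hzK : Kᶜ ∈ 𝓝 z := hK.isClosed.isOpen_compl.mem_nhds fun h => hz (hKO h)
    have : U i =ᶠ[𝓝 z] fun _ => (0 : ℝ) := by
      filter_upwards [hzK] with z' hz'
      by_cases h : z' ∈ O
      · show O.indicator _ z' = 0
        rw [indicator_of_mem h, hUK i z' h hz']
      · exact indicator_of_notMem h _
    rw [this.fderiv_eq]
    simp

end Pool.Agent.H21.WS
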