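import Mathlib
import Pool.Agent.H21.WS.Div
import Pool.Graph.R_seed8.Helper186.DForms

/-! A closed manifold of positive dimension has no one-form with nondegenerate exterior derivative. -/

open Finset Matrix MeasureTheory Set Module Pool.Agent.Helper186
open scoped Topology ContDiff Manifold

noncomputable section

set_option linter.unusedSectionVars false

namespace Pool.Agent.H21.WS

variable {E : Type*} [NormedAddCommGroup E] [NormedSpace ℝ E] [FiniteDimensional ℝ E]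
  {M : Type*} [TopologicalSpace M] [ChartedSpace E M] [IsManifold 𝓘(ℝ, E) ∞ M]

/-- the derivative of the inverse chart -/
def Dsym (a : M) (z : E) : E →L[ℝ] E := mfderiv 𝓘(ℝ, E) 𝓘(ℝ, E) (extChartAt 𝓘(ℝ, E) a).symm z

/-- the derivative of the chart -/
def Dch (a : M) (x : M) : E →L[ℝ] E := mfderiv 𝓘(ℝ, E) 𝓘(ℝ, E) (extChartAt 𝓘(ℝ, E) a) x

lemma Dsym_Dch (a : M) {z : E} (hz : z ∈ (extChartAt 𝓘(ℝ, E) a).target) (u : E) :
    Dsym a z (Dch a ((extChartAt 𝓘(ℝ, E) a).symm z) u) = u := by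
  have h := mfderivWithin_extChartAt_symm_comp_mfderiv_extChartAt (I := 𝓘(ℝ, E)) hz
  rw [show range (𝓘(ℝ, E) : E → E) = univ by simp, mfderivWithin_univ] at h
  exact DFunLike.congr_fun h u

lemma Dch_Dsym (a : M) {z : E} (hz : z ∈ (extChartAt 𝓘(ℝ, E) a).target) (u : E) :
    Dch a ((extChartAt 𝓘(ℝ, E) a).symm z) (Dsym a z u) = u := by
  have h := mfderiv_extChartAt_comp_mfderivWithin_extChartAt_symm (I := 𝓘(ℝ, E)) hz
  rw [show range (𝓘(ℝ, E) : E → E) = univ by simp, mfderivWithin_univ] at h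
  exact DFunLike.congr_fun h u

/-- a bilinear form on the tangent spaces -/
abbrev ed (θ : (x : M) → TangentSpace 𝓘(ℝ, E) x →L[ℝ] ℝ) (x : M) (u v : E) : ℝ :=
  extDer 𝓘(ℝ, E) θ x u v

lemma dB_chart {θ : (x : M) → TangentSpace 𝓘(ℝ, E) x →L[ℝ] ℝ} (hθ : SmoothForm θ) (a : M) {z : E}
    (hz : z ∈ (extChartAt 𝓘(ℝ, E) a).target) (u v : E) :
    dB (chartForm 𝓘(ℝ, E) θ a) z u v =
      ed θ ((extChartAt 𝓘(ℝ, E) a).symm z) (Dsym a z u) (Dsym a z v) := by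
  have h3 := extDer_pullback hθ (isOpen_extChartAt_target a) (contMDiffOn_extChartAt_symm a) hz u v
  refine Eq.trans ?_ h3.symm
  have hd : DifferentiableAt ℝ (chartForm 𝓘(ℝ, E) θ a) z :=
    ((contDiffOn_chartForm hθ a).contDiffAt
      ((isOpen_extChartAt_target a).mem_nhds hz)).differentiableAt (by simp)
  have h4 : ∀ c d : E, fderiv ℝ (fun q => θ ((extChartAt 𝓘(ℝ, E) a).symm q)
      (mfderiv 𝓘(ℝ, E) 𝓘(ℝ, E) (extChartAt 𝓘(ℝ, E) a).symm q d)) z c =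
      fderiv ℝ (chartForm 𝓘(ℝ, E) θ a) z c d := by
    intro c d
    have h5 : HasFDerivAt (fun q => chartForm 𝓘(ℝ, E) θ a q d)
        ((ContinuousLinearMap.apply ℝ ℝ d).comp (fderiv ℝ (chartForm 𝓘(ℝ, E) θ a) z)) z :=
      (ContinuousLinearMap.apply ℝ ℝ d).hasFDerivAt.comp z hd.hasFDerivAt
    have h6 := h5.fderiv
    change fderiv ℝ (fun q => chartForm 𝓘(ℝ, E) θ a q d) z c = _
    rw [h6]
    rfl
  rw [h4, h4]
  rfl

lemma dB_nondeg {θ : (x : M) → TangentSpace 𝓘(ℝ, E) x →L[ℝ] ℝ} (hθ : SmoothForm θ)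
    (hnd : ∀ (x : M) (u : E), (∀ v : E, ed θ x u v = 0) → u = 0) (a : M) :
    ∀ z ∈ (extChartAt 𝓘(ℝ, E) a).target, ∀ u,
      (∀ v, dB (chartForm 𝓘(ℝ, E) θ a) z u v = 0) → u = 0 := by
  intro z hz u hu
  have h1 : Dsym a z u = 0 := by
    apply hnd ((extChartAt 𝓘(ℝ, E) a).symm z)
    intro v
    have h2 := hu (Dch a ((extChartAt 𝓘(ℝ, E) a).symm z) v)
    rw [dB_chart hθ a hz, Dsym_Dch a hz] at h2
    exact h2
  rw [← Dch_Dsym a hz u, h1, map_zero]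

/-- the density in the chart at `a` -/
def rr (θ : (x : M) → TangentSpace 𝓘(ℝ, E) x →L[ℝ] ℝ) (a : M) (z : E) : ℝ :=
  dens (dB (chartForm 𝓘(ℝ, E) θ a) z)

/-- the change of charts -/
lemma rr_trans {θ : (x : M) → TangentSpace 𝓘(ℝ, E) x →L[ℝ] ℝ} (hθ : SmoothForm θ) (a c : M)
    {z : E} (hz : z ∈ (extChartAt 𝓘(ℝ, E) a).target)
    (hz' : (extChartAt 𝓘(ℝ, E) a).symm z ∈ (extChartAt 𝓘(ℝ, E) c).source) :
    HasFDerivAt (fun z => extChartAt 𝓘(ℝ, E) c ((extChartAt 𝓘(ℝ, E) a).symm z))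
      ((Dch c ((extChartAt 𝓘(ℝ, E) a).symm z)).comp (Dsym a z)) z ∧
    rr θ a z = |((Dch c ((extChartAt 𝓘(ℝ, E) a).symm z)).comp (Dsym a z)).det| *
      rr θ c (extChartAt 𝓘(ℝ, E) c ((extChartAt 𝓘(ℝ, E) a).symm z)) := by
  set x := (extChartAt 𝓘(ℝ, E) a).symm z with hx
  constructor
  · have h1 : MDifferentiableAt 𝓘(ℝ, E) 𝓘(ℝ, E) (extChartAt 𝓘(ℝ, E) c) x := by
      apply mdifferentiableAt_extChartAt
      rwa [extChartAt_source] at hz'
    have h2 : MDifferentiableAt 𝓘(ℝ, E) 𝓘(ℝ, E) (extChartAt 𝓘(ℝ, E) a).symm z :=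
      ((contMDiffOn_extChartAt_symm (n := ∞) a).contMDiffAt
        ((isOpen_extChartAt_target a).mem_nhds hz)).mdifferentiableAt (by simp)
    have h3 := HasMFDerivAt.comp z h1.hasMFDerivAt h2.hasMFDerivAt
    exact h3.hasFDerivAt
  · apply dens_pull
    intro u v
    have hcz : extChartAt 𝓘(ℝ, E) c x ∈ (extChartAt 𝓘(ℝ, E) c).target :=
      (extChartAt 𝓘(ℝ, E) c).map_source hz'
    rw [dB_chart hθ a hz, dB_chart hθ c hcz]
    have e1 : (extChartAt 𝓘(ℝ, E) c).symm (extChartAt 𝓘(ℝ, E) c x) = x :=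
      (extChartAt 𝓘(ℝ, E) c).left_inv hz'
    have e2 : ∀ w : E, Dsym c (extChartAt 𝓘(ℝ, E) c x) (Dch c x w) = w := by
      intro w
      have := Dsym_Dch c hcz w
      rwa [e1] at this
    have e3 : ∀ w : E, ((Dch c x).comp (Dsym a z)) w = Dch c x (Dsym a z w) := fun w => rfl
    rw [e3, e3, e2, e2, e1]

variable [MeasurableSpace E] [BorelSpace E] (μ : Measure E) [μ.IsAddHaarMeasure]

/-- the integral of a function supported in the chart at `a` -/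
def In (θ : (x : M) → TangentSpace 𝓘(ℝ, E) x →L[ℝ] ℝ) (a : M) (h : M → ℝ) : ℝ :=
  ∫ z in (extChartAt 𝓘(ℝ, E) a).target, h ((extChartAt 𝓘(ℝ, E) a).symm z) * rr θ a z ∂μ

/-- the integral does not depend on the chart -/
lemma In_glue {θ : (x : M) → TangentSpace 𝓘(ℝ, E) x →L[ℝ] ℝ} (hθ : SmoothForm θ) (a c : M)
    {h : M → ℝ} (ha : ∀ x, h x ≠ 0 → x ∈ (extChartAt 𝓘(ℝ, E) a).source)
    (hc : ∀ x, h x ≠ 0 → x ∈ (extChartAt 𝓘(ℝ, E) c).source) : In μ θ a h = In μ θ c h := by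
  have key : ∀ a c : M, IsOpen ((extChartAt 𝓘(ℝ, E) a).target ∩
      (extChartAt 𝓘(ℝ, E) a).symm ⁻¹' (extChartAt 𝓘(ℝ, E) c).source) := fun a c =>
    (continuousOn_extChartAt_symm a).isOpen_inter_preimage (isOpen_extChartAt_target a)
      (isOpen_extChartAt_source c)
  have h1 : ∀ a c : M, (∀ x, h x ≠ 0 → x ∈ (extChartAt 𝓘(ℝ, E) c).source) → In μ θ a h =
      ∫ z in (extChartAt 𝓘(ℝ, E) a).target ∩
        (extChartAt 𝓘(ℝ, E) a).symm ⁻¹' (extChartAt 𝓘(ℝ, E) c).source,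
        h ((extChartAt 𝓘(ℝ, E) a).symm z) * rr θ a z ∂μ := by
    intro a c hc
    unfold In
    refine setIntegral_eq_of_subset_of_forall_sdiff_eq_zero
      (isOpen_extChartAt_target a).measurableSet inter_subset_left ?_
    rintro z ⟨hz1, hz2⟩
    have : h ((extChartAt 𝓘(ℝ, E) a).symm z) = 0 := by
      by_contra h0
      exact hz2 ⟨hz1, hc _ h0⟩
    rw [this, zero_mul]
  rw [h1 a c hc, h1 c a ha]
  set τ : E → E := fun z => extChartAt 𝓘(ℝ, E) c ((extChartAt 𝓘(ℝ, E) a).symm z) with hτ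
  have himg : τ '' ((extChartAt 𝓘(ℝ, E) a).target ∩
      (extChartAt 𝓘(ℝ, E) a).symm ⁻¹' (extChartAt 𝓘(ℝ, E) c).source) =
      (extChartAt 𝓘(ℝ, E) c).target ∩
        (extChartAt 𝓘(ℝ, E) c).symm ⁻¹' (extChartAt 𝓘(ℝ, E) a).source := by
    ext w
    constructor
    · rintro ⟨z, ⟨hz1, hz2⟩, rfl⟩
      refine ⟨(extChartAt 𝓘(ℝ, E) c).map_source hz2, ?_⟩
      rw [Set.mem_preimage, hτ]
      simp only
      rw [(extChartAt 𝓘(ℝ, E) c).left_inv hz2]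
      exact (extChartAt 𝓘(ℝ, E) a).map_target hz1
    · rintro ⟨hw1, hw2⟩
      refine ⟨extChartAt 𝓘(ℝ, E) a ((extChartAt 𝓘(ℝ, E) c).symm w),
        ⟨(extChartAt 𝓘(ℝ, E) a).map_source hw2, ?_⟩, ?_⟩
      · rw [Set.mem_preimage, (extChartAt 𝓘(ℝ, E) a).left_inv hw2]
        exact (extChartAt 𝓘(ℝ, E) c).map_target hw1
      · rw [hτ]
        simp only
        rw [(extChartAt 𝓘(ℝ, E) a).left_inv hw2, (extChartAt 𝓘(ℝ, E) c).right_inv hw1]
  rw [← himg]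
  have hinj : InjOn τ ((extChartAt 𝓘(ℝ, E) a).target ∩
      (extChartAt 𝓘(ℝ, E) a).symm ⁻¹' (extChartAt 𝓘(ℝ, E) c).source) := by
    rintro z ⟨hz1, hz2⟩ w ⟨hw1, hw2⟩ hzw
    have e1 := (extChartAt 𝓘(ℝ, E) c).injOn hz2 hw2 hzw
    have e2 := congrArg (extChartAt 𝓘(ℝ, E) a) e1
    rwa [(extChartAt 𝓘(ℝ, E) a).right_inv hz1, (extChartAt 𝓘(ℝ, E) a).right_inv hw1] at e2
  rw [integral_image_eq_integral_abs_det_fderiv_smul μ (key a c).measurableSet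
    (fun z hz => ((rr_trans hθ a c hz.1 hz.2).1).hasFDerivWithinAt) hinj]
  refine setIntegral_congr_fun (key a c).measurableSet ?_
  rintro z ⟨hz1, hz2⟩
  simp only [smul_eq_mul]
  rw [(rr_trans hθ a c hz1 hz2).2]
  rw [(extChartAt 𝓘(ℝ, E) c).left_inv hz2]
  ring

section fields

variable {θ : (x : M) → TangentSpace 𝓘(ℝ, E) x →L[ℝ] ℝ}

/-- the differential of a function -/
def mD (h : M → ℝ) (x : M) : E →L[ℝ] ℝ := mfderiv 𝓘(ℝ, E) 𝓘(ℝ, ℝ) h x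

/-- the derivative of a function along the field `Y` -/
def Yd (Y : M → E) (h : M → ℝ) (x : M) : ℝ := mD h x (Y x)

/-- the field `Y` in the chart at `a` -/
def Ych (Y : M → E) (a : M) (z : E) : E :=
  Dch a ((extChartAt 𝓘(ℝ, E) a).symm z) (Y ((extChartAt 𝓘(ℝ, E) a).symm z))

lemma Ych_spec (hθ : SmoothForm θ) {Y : M → E} (hY : ∀ (x : M) (v : E), ed θ x (Y x) v = θ x v)
    (a : M) : ∀ z ∈ (extChartAt 𝓘(ℝ, E) a).target, ∀ v,
      dB (chartForm 𝓘(ℝ, E) θ a) z (Ych Y a z) v = chartForm 𝓘(ℝ, E) θ a z v := by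
  intro z hz v
  rw [dB_chart hθ a hz, Ych, Dsym_Dch a hz]
  exact hY _ _

lemma Yd_chart {Y : M → E} {h : M → ℝ} (hh : ContMDiff 𝓘(ℝ, E) 𝓘(ℝ, ℝ) ∞ h) (a : M) {z : E}
    (hz : z ∈ (extChartAt 𝓘(ℝ, E) a).target) :
    Yd Y h ((extChartAt 𝓘(ℝ, E) a).symm z) =
      fderiv ℝ (fun z => h ((extChartAt 𝓘(ℝ, E) a).symm z)) z (Ych Y a z) := by
  have h2 : MDifferentiableAt 𝓘(ℝ, E) 𝓘(ℝ, E) (extChartAt 𝓘(ℝ, E) a).symm z :=
    ((contMDiffOn_extChartAt_symm (n := ∞) a).contMDiffAt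
      ((isOpen_extChartAt_target a).mem_nhds hz)).mdifferentiableAt (by simp)
  have h1 : MDifferentiableAt 𝓘(ℝ, E) 𝓘(ℝ, ℝ) h ((extChartAt 𝓘(ℝ, E) a).symm z) :=
    hh.mdifferentiableAt (by simp)
  have h3 : HasFDerivAt (fun z => h ((extChartAt 𝓘(ℝ, E) a).symm z))
      ((mD h ((extChartAt 𝓘(ℝ, E) a).symm z)).comp (Dsym a z)) z := by
    have h4 := HasMFDerivAt.comp z h1.hasMFDerivAt h2.hasMFDerivAt
    exact h4.hasFDerivAt
  rw [h3.fderiv]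
  have e3 : ((mD h ((extChartAt 𝓘(ℝ, E) a).symm z)).comp (Dsym a z)) (Ych Y a z) =
      mD h ((extChartAt 𝓘(ℝ, E) a).symm z) (Dsym a z (Ych Y a z)) := rfl
  rw [e3, Ych, Dsym_Dch a hz]
  rfl

lemma contDiffOn_chart {h : M → ℝ} (hh : ContMDiff 𝓘(ℝ, E) 𝓘(ℝ, ℝ) ∞ h) (a : M) :
    ContDiffOn ℝ ∞ (fun z => h ((extChartAt 𝓘(ℝ, E) a).symm z))
      (extChartAt 𝓘(ℝ, E) a).target :=
  contMDiffOn_iff_contDiffOn.1 (hh.comp_contMDiffOn (contMDiffOn_extChartAt_symm a))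

lemma continuousOn_Yd (hθ : SmoothForm θ)
    (hnd : ∀ (x : M) (u : E), (∀ v : E, ed θ x u v = 0) → u = 0)
    {Y : M → E} (hY : ∀ (x : M) (v : E), ed θ x (Y x) v = θ x v)
    {h : M → ℝ} (hh : ContMDiff 𝓘(ℝ, E) 𝓘(ℝ, ℝ) ∞ h) (a : M) :
    ContinuousOn (fun z => Yd Y h ((extChartAt 𝓘(ℝ, E) a).symm z))
      (extChartAt 𝓘(ℝ, E) a).target := by
  have h1 : ContinuousOn (fun z => fderiv ℝ (fun z => h ((extChartAt 𝓘(ℝ, E) a).symm z)) z
      (∑ i, yc (chartForm 𝓘(ℝ, E) θ a) i z • finBasis ℝ E i))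
      (extChartAt 𝓘(ℝ, E) a).target := by
    refine ContinuousOn.clm_apply ?_ ?_
    · exact ((contDiffOn_chart hh a).fderiv_of_isOpen (isOpen_extChartAt_target a)
        (m := ∞) (by simp)).continuousOn
    · refine continuousOn_finsetSum _ fun i _ => ?_
      exact ((contDiffOn_yc (isOpen_extChartAt_target a) (contDiffOn_chartForm hθ a)
        (dB_nondeg hθ hnd a) i).continuousOn).smul continuousOn_const
  refine h1.congr fun z hz => ?_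
  simp only
  rw [Yd_chart hh a hz, ← repr_eq_yc (dB_nondeg hθ hnd a z hz) (Ych_spec hθ hY a z hz)]

/-- The divergence theorem in a chart. -/
lemma chart_div (hθ : SmoothForm θ)
    (hnd : ∀ (x : M) (u : E), (∀ v : E, ed θ x u v = 0) → u = 0)
    {Y : M → E} (hY : ∀ (x : M) (v : E), ed θ x (Y x) v = θ x v)
    {h : M → ℝ} (hh : ContMDiff 𝓘(ℝ, E) 𝓘(ℝ, ℝ) ∞ h) (a : M) {K : Set M} (hK : IsCompact K)
    (hKa : K ⊆ (extChartAt 𝓘(ℝ, E) a).source) (hhK : ∀ x, x ∉ K → h x = 0) :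
    In μ θ a (fun x => Yd Y h x + (finrank ℝ E : ℝ) / 2 * h x) = 0 := by
  have hK' : IsCompact (extChartAt 𝓘(ℝ, E) a '' K) :=
    hK.image_of_continuousOn ((continuousOn_extChartAt a).mono hKa)
  have h1 := local_div (μ := μ) (isOpen_extChartAt_target (I := 𝓘(ℝ, E)) a)
    (contDiffOn_chartForm hθ a) (dB_nondeg hθ hnd a) (contDiffOn_chart hh a) hK'
    (by
      rintro _ ⟨x, hx, rfl⟩
      exact (extChartAt 𝓘(ℝ, E) a).map_source (hKa hx))
    (by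
      intro z hz hzK
      apply hhK
      intro hx
      exact hzK ⟨_, hx, (extChartAt 𝓘(ℝ, E) a).right_inv hz⟩)
    (Ych_spec hθ hY a)
  rw [← h1]
  unfold In
  refine setIntegral_congr_fun (isOpen_extChartAt_target a).measurableSet ?_
  intro z hz
  simp only
  rw [Yd_chart hh a hz]
  rfl

lemma integrableOn_chart (hθ : SmoothForm θ)
    (hnd : ∀ (x : M) (u : E), (∀ v : E, ed θ x u v = 0) → u = 0)
    {φ : M → ℝ} (a : M) (hφ : ContinuousOn (fun z => φ ((extChartAt 𝓘(ℝ, E) a).symm z))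
      (extChartAt 𝓘(ℝ, E) a).target) {K : Set M} (hK : IsCompact K)
    (hKa : K ⊆ (extChartAt 𝓘(ℝ, E) a).source) (hφK : ∀ x, x ∉ K → φ x = 0) :
    IntegrableOn (fun z => φ ((extChartAt 𝓘(ℝ, E) a).symm z) * rr θ a z)
      (extChartAt 𝓘(ℝ, E) a).target μ := by
  have hK' : IsCompact (extChartAt 𝓘(ℝ, E) a '' K) :=
    hK.image_of_continuousOn ((continuousOn_extChartAt a).mono hKa)
  have hKt : extChartAt 𝓘(ℝ, E) a '' K ⊆ (extChartAt 𝓘(ℝ, E) a).target := by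
    rintro _ ⟨x, hx, rfl⟩
    exact (extChartAt 𝓘(ℝ, E) a).map_source (hKa hx)
  have h1 : ContinuousOn (fun z => φ ((extChartAt 𝓘(ℝ, E) a).symm z) * rr θ a z)
      (extChartAt 𝓘(ℝ, E) a).target :=
    hφ.mul (contDiffOn_dens (isOpen_extChartAt_target a) (contDiffOn_chartForm hθ a)
      (dB_nondeg hθ hnd a)).continuousOn
  have h2 : IntegrableOn (fun z => φ ((extChartAt 𝓘(ℝ, E) a).symm z) * rr θ a z)
      (extChartAt 𝓘(ℝ, E) a '' K) μ := (h1.mono hKt).integrableOn_compact hK'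
  refine h2.of_forall_sdiff_eq_zero (isOpen_extChartAt_target a).measurableSet ?_
  rintro z ⟨hz, hzK⟩
  rw [hφK, zero_mul]
  intro hx
  exact hzK ⟨_, hx, (extChartAt 𝓘(ℝ, E) a).right_inv hz⟩

end fields

end Pool.Agent.H21.WS
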