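import Mathlib
import Pool.Agent.H21.WS.Stokes

/-! A closed manifold of positive dimension has no one-form with nondegenerate exterior derivative:
the theorem. -/

open Finset Matrix MeasureTheory Set Module Pool.Agent.Helper186
open scoped Topology ContDiff Manifold

noncomputable section

set_option linter.unusedSectionVars false

namespace Pool.Agent.H21.WS

variable {E : Type*} [NormedAddCommGroup E] [NormedSpace ℝ E] [FiniteDimensional ℝ E]
  {M : Type*} [TopologicalSpace M] [ChartedSpace E M] [IsManifold 𝓘(ℝ, E) ∞ M]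
  {θ : (x : M) → TangentSpace 𝓘(ℝ, E) x →L[ℝ] ℝ}

/-- the Liouville field -/
lemma exists_Y (hnd : ∀ (x : M) (u : E), (∀ v : E, ed θ x u v = 0) → u = 0) :
    ∃ Y : M → E, ∀ (x : M) (v : E), ed θ x (Y x) v = θ x v := by
  have h : ∀ x : M, ∃ u : E, ∀ v : E, ed θ x u v = θ x v := by
    intro x
    let B : E →L[ℝ] E →L[ℝ] ℝ := extDerL 𝓘(ℝ, E) θ x
    have hB : ∀ u v : E, B u v = ed θ x u v := fun u v => rfl
    have hinj : Function.Injective (B : E →ₗ[ℝ] (E →L[ℝ] ℝ)) := by
      rw [injective_iff_map_eq_zero]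
      intro u hu
      apply hnd x u
      intro v
      rw [← hB]
      exact DFunLike.congr_fun hu v
    have hdim : Module.finrank ℝ E = Module.finrank ℝ (E →L[ℝ] ℝ) := by
      rw [← (LinearMap.toContinuousLinearMap (𝕜 := ℝ) (E := E) (F' := ℝ)).finrank_eq]
      exact (Subspace.dual_finrank_eq (K := ℝ) (V := E)).symm
    have hsurj := (LinearMap.injective_iff_surjective_of_finrank_eq_finrank
      (f := (B : E →ₗ[ℝ] (E →L[ℝ] ℝ))) hdim).1 hinj
    obtain ⟨u, hu⟩ := hsurj (θ x)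
    exact ⟨u, fun v => by
      rw [← hB]
      exact DFunLike.congr_fun hu v⟩
  choose Y hY using h
  exact ⟨Y, hY⟩

lemma Yd_support {Y : M → E} {h : M → ℝ} {x : M} (hx : x ∉ tsupport h) : Yd Y h x = 0 := by
  have h1 : h =ᶠ[𝓝 x] fun _ => (0 : ℝ) := notMem_tsupport_iff_eventuallyEq.1 hx
  have h2 := h1.mfderiv_eq (I := 𝓘(ℝ, E)) (I' := 𝓘(ℝ, ℝ))
  unfold Yd mD
  rw [h2, mfderiv_const]
  rfl

lemma sum_Yd {ι : Type*} [Fintype ι] {Y : M → E} {f : ι → M → ℝ}
    (hf : ∀ i, ContMDiff 𝓘(ℝ, E) 𝓘(ℝ, ℝ) ∞ (f i)) (h1 : ∀ x, ∑ i, f i x = 1) (x : M) :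
    ∑ i, Yd Y (f i) x = 0 := by
  borelize E
  have hz : extChartAt 𝓘(ℝ, E) x x ∈ (extChartAt 𝓘(ℝ, E) x).target :=
    (extChartAt 𝓘(ℝ, E) x).map_source (mem_extChartAt_source x)
  have e : ∀ i, Yd Y (f i) x = fderiv ℝ (fun z => f i ((extChartAt 𝓘(ℝ, E) x).symm z))
      (extChartAt 𝓘(ℝ, E) x x) (Ych Y x (extChartAt 𝓘(ℝ, E) x x)) := by
    intro i
    have := Yd_chart (Y := Y) (hf i) x hz
    rwa [(extChartAt 𝓘(ℝ, E) x).left_inv (mem_extChartAt_source x)] at this
  simp only [e]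
  have h2 : ∀ i, HasFDerivAt (fun z => f i ((extChartAt 𝓘(ℝ, E) x).symm z))
      (fderiv ℝ (fun z => f i ((extChartAt 𝓘(ℝ, E) x).symm z)) (extChartAt 𝓘(ℝ, E) x x))
      (extChartAt 𝓘(ℝ, E) x x) := fun i =>
    (((contDiffOn_chart (hf i) x).contDiffAt
      ((isOpen_extChartAt_target x).mem_nhds hz)).differentiableAt (by simp)).hasFDerivAt
  have h3 := HasFDerivAt.fun_sum (u := Finset.univ) fun i _ => h2 i
  simp only [h1] at h3
  have h4 := h3.unique (hasFDerivAt_const (1 : ℝ) _)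
  have h5 := DFunLike.congr_fun h4 (Ych Y x (extChartAt 𝓘(ℝ, E) x x))
  simpa using h5

/-- **A closed manifold of positive dimension has no one-form with nondegenerate exterior
derivative.** -/
theorem no_exact [T2Space M] [CompactSpace M] [Nonempty M] (hdim : 0 < finrank ℝ E)
    (hθ : SmoothForm θ) (hnd : ∀ (x : M) (u : E), (∀ v : E, ed θ x u v = 0) → u = 0) : False := by
  borelize E
  have : ProperSpace E := FiniteDimensional.proper ℝ E
  let μ : Measure E := Measure.addHaar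
  obtain ⟨Y, hY⟩ := exists_Y hnd
  -- a partition of unity
  obtain ⟨t, -, ht⟩ := (isCompact_univ (X := M)).elim_nhds_subcover
    (fun x => (extChartAt 𝓘(ℝ, E) x).source) (fun x _ => extChartAt_source_mem_nhds x)
  obtain ⟨f, hf⟩ := SmoothPartitionOfUnity.exists_isSubordinate 𝓘(ℝ, E) (isClosed_univ (X := M))
    (fun a : t => (extChartAt 𝓘(ℝ, E) (a : M)).source) (fun a => isOpen_extChartAt_source _)
    (by
      intro x hx
      obtain ⟨a, ha⟩ := Set.mem_iUnion.1 (ht hx)
      obtain ⟨ha1, ha2⟩ := Set.mem_iUnion.1 ha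
      exact Set.mem_iUnion.2 ⟨⟨a, ha1⟩, ha2⟩)
  have hfs : ∀ a, ContMDiff 𝓘(ℝ, E) 𝓘(ℝ, ℝ) ∞ (fun x => f a x) := fun a => (f a).contMDiff
  have hsum : ∀ x, ∑ a, f a x = 1 := by
    intro x
    rw [← finsum_eq_sum_of_fintype]
    exact f.sum_eq_one (mem_univ x)
  have hK : ∀ a, IsCompact (tsupport (f a)) := fun a => (isClosed_tsupport _).isCompact
  have hKs : ∀ a : t, tsupport (f a) ⊆ (extChartAt 𝓘(ℝ, E) (a : M)).source := fun a => hf a
  have hf0 : ∀ (a : t) (x : M), x ∉ tsupport (f a) → f a x = 0 := fun a x hx =>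
    image_eq_zero_of_notMem_tsupport hx
  -- integrability
  have hcf : ∀ (a : t) (c : M), ContinuousOn (fun z => f a ((extChartAt 𝓘(ℝ, E) c).symm z))
      (extChartAt 𝓘(ℝ, E) c).target := fun a c => (contDiffOn_chart (hfs a) c).continuousOn
  have hcY : ∀ (a : t) (c : M), ContinuousOn
      (fun z => Yd Y (fun x => f a x) ((extChartAt 𝓘(ℝ, E) c).symm z))
      (extChartAt 𝓘(ℝ, E) c).target := fun a c => continuousOn_Yd hθ hnd hY (hfs a) c
  have hY0 : ∀ (a : t) (x : M), x ∉ tsupport (f a) → Yd Y (fun x => f a x) x = 0 :=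
    fun a x hx => Yd_support hx
  let P : t → t → ℝ := fun c a => In μ θ (c : M) (fun x => f c x * Yd Y (fun x => f a x) x)
  have h1 : ∀ a : t, In μ θ (a : M) (fun x => Yd Y (fun x => f a x) x) = ∑ c, P c a := by
    intro a
    have e1 : ∀ c : t, P c a = In μ θ (a : M) (fun x => f c x * Yd Y (fun x => f a x) x) := by
      intro c
      refine In_glue μ hθ _ _ ?_ ?_
      · intro x hx
        apply hKs c
        by_contra h
        exact hx (by rw [hf0 c x h, zero_mul])
      · intro x hx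
        apply hKs a
        by_contra h
        exact hx (by rw [hY0 a x h, mul_zero])
    simp only [e1]
    unfold In
    rw [← integral_finsetSum]
    · congr 1
      ext1 z
      rw [← Finset.sum_mul, ← Finset.sum_mul, hsum, one_mul]
    · intro c _
      exact integrableOn_chart μ hθ hnd (φ := fun x => f c x * Yd Y (fun x => f a x) x)
        (a : M) ((hcf c a).mul (hcY a a)) (hK a) (hKs a)
        (fun x hx => by rw [hY0 a x hx, mul_zero])
  have h2 : ∀ c : t, ∑ a, P c a = 0 := by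
    intro c
    show ∑ a, In μ θ (c : M) (fun x => f c x * Yd Y (fun x => f a x) x) = 0
    unfold In
    rw [← integral_finsetSum]
    · rw [← integral_zero (α := E) (μ := μ.restrict (extChartAt 𝓘(ℝ, E) (c : M)).target) (G := ℝ)]
      congr 1
      ext1 z
      rw [← Finset.sum_mul, ← Finset.mul_sum, sum_Yd hfs hsum, mul_zero, zero_mul]
    · intro a _
      exact integrableOn_chart μ hθ hnd (φ := fun x => f c x * Yd Y (fun x => f a x) x)
        (c : M) ((hcf c c).mul (hcY a c)) (hK c) (hKs c)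
        (fun x hx => by rw [hf0 c x hx, zero_mul])
  have h3 : ∑ a : t, In μ θ (a : M) (fun x => Yd Y (fun x => f a x) x) = 0 := by
    simp only [h1]
    rw [Finset.sum_comm]
    exact Finset.sum_eq_zero fun c _ => h2 c
  have h4 : ∀ a : t, In μ θ (a : M) (fun x => Yd Y (fun x => f a x) x) +
      (finrank ℝ E : ℝ) / 2 * In μ θ (a : M) (fun x => f a x) = 0 := by
    intro a
    have e1 := chart_div μ hθ hnd hY (hfs a) (a : M) (hK a) (hKs a) (hf0 a)
    rw [← e1]
    unfold In
    rw [← integral_const_mul, ← integral_add]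
    · congr 1
      ext1 z
      ring
    · exact integrableOn_chart μ hθ hnd (a : M) (hcY a a) (hK a) (hKs a) (hY0 a)
    · exact (integrableOn_chart μ hθ hnd (a : M) (hcf a a) (hK a) (hKs a) (hf0 a)).const_mul _
  have h5 : (finrank ℝ E : ℝ) / 2 * ∑ a : t, In μ θ (a : M) (fun x => f a x) = 0 := by
    have := Finset.sum_eq_zero fun (a : t) (_ : a ∈ Finset.univ) => h4 a
    rw [Finset.sum_add_distrib, h3, zero_add, ← Finset.mul_sum] at this
    exact this
  -- positivity
  have h6 : ∀ a : t, 0 ≤ In μ θ (a : M) (fun x => f a x) := by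
    intro a
    refine integral_nonneg fun z => mul_nonneg (f.nonneg _ _) (Real.sqrt_nonneg _)
  obtain ⟨x⟩ := ‹Nonempty M›
  obtain ⟨a, ha⟩ : ∃ a : t, 0 < f a x := f.exists_pos_of_mem (mem_univ x)
  have h7 : 0 < In μ θ (a : M) (fun x => f a x) := by
    unfold In
    rw [setIntegral_pos_iff_support_of_nonneg_ae]
    · have hxs : x ∈ (extChartAt 𝓘(ℝ, E) (a : M)).source := by
        apply hKs a
        apply subset_tsupport
        exact ha.ne'
      have ho : IsOpen ((extChartAt 𝓘(ℝ, E) (a : M)).target ∩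
          (fun z => f a ((extChartAt 𝓘(ℝ, E) (a : M)).symm z)) ⁻¹' Ioi 0) :=
        (hcf a a).isOpen_inter_preimage (isOpen_extChartAt_target _) isOpen_Ioi
      refine lt_of_lt_of_le (ho.measure_pos μ ⟨extChartAt 𝓘(ℝ, E) (a : M) x,
        (extChartAt 𝓘(ℝ, E) (a : M)).map_source hxs, ?_⟩) (measure_mono ?_)
      · show 0 < f a ((extChartAt 𝓘(ℝ, E) (a : M)).symm (extChartAt 𝓘(ℝ, E) (a : M) x))
        rw [(extChartAt 𝓘(ℝ, E) (a : M)).left_inv hxs]
        exact ha
      · rintro z ⟨hz1, hz2⟩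
        refine ⟨?_, hz1⟩
        have hz3 : 0 < f a ((extChartAt 𝓘(ℝ, E) (a : M)).symm z) := hz2
        exact (mul_pos hz3 (dens_pos (dB_nondeg hθ hnd (a : M) z hz1))).ne'
    · exact Filter.Eventually.of_forall fun z => mul_nonneg (f.nonneg _ _) (Real.sqrt_nonneg _)
    · exact integrableOn_chart μ hθ hnd (a : M) (hcf a a) (hK a) (hKs a) (hf0 a)
  have h8 : 0 < ∑ a : t, In μ θ (a : M) (fun x => f a x) :=
    Finset.sum_pos' (fun a _ => h6 a) ⟨a, Finset.mem_univ _, h7⟩
  have h9 : 0 < (finrank ℝ E : ℝ) / 2 * ∑ a : t, In μ θ (a : M) (fun x => f a x) := by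
    have : (0 : ℝ) < finrank ℝ E := by exact_mod_cast hdim
    positivity
  exact absurd h5 h9.ne'

end Pool.Agent.H21.WS
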