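import Mathlib
import Pool.Agent.H21.WS.Stokes
import Pool.Graph.R_pool_sql_team_seeded_64922ed1.X167.W.LocInj

/-! Lifting the values of a function to a smooth path in a compact piece of a level set of another
function. -/

open Set Filter Module Pool.Agent.Helper186 Pool.Agent.H826R2.Wein Bundle
open scoped Topology ContDiff Manifold

noncomputable section

set_option linter.unusedSectionVars false

namespace Pool.Agent.H21.WS

universe u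

variable {E : Type u} [NormedAddCommGroup E] [NormedSpace ℝ E] [FiniteDimensional ℝ E]
  {P : Type*} [TopologicalSpace P] [ChartedSpace E P] [IsManifold 𝓘(ℝ, E) ∞ P]

/-- the derivative of a smooth function along a smooth field is smooth -/
lemma contMDiffAt_mD {Φ : P → ℝ} (hΦ : ContMDiff 𝓘(ℝ, E) 𝓘(ℝ, ℝ) ∞ Φ)
    {V : P → E} {p : P}
    (hV : ContMDiffAt 𝓘(ℝ, E) 𝓘(ℝ, E).tangent ∞
      (fun x => (⟨x, V x⟩ : TangentBundle 𝓘(ℝ, E) P)) p) :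
    ContMDiffAt 𝓘(ℝ, E) 𝓘(ℝ, ℝ) ∞ (fun x => mD Φ x (V x)) p :=
  (smoothForm_dForm hΦ).comp hV le_rfl

/-- A local field along which `Φ` is constant and `g` grows with speed one. -/
lemma exists_local_field {Φ g : P → ℝ} (hΦ : ContMDiff 𝓘(ℝ, E) 𝓘(ℝ, ℝ) ∞ Φ)
    (hg : ContMDiff 𝓘(ℝ, E) 𝓘(ℝ, ℝ) ∞ g) {p : P}
    (h : ∃ v w : E, mD Φ p v = 0 ∧ mD g p v = 1 ∧ mD Φ p w = 1 ∧ mD g p w = 0) :
    ∃ (U : Set P) (V : P → E), IsOpen U ∧ p ∈ U ∧
      ContMDiffOn 𝓘(ℝ, E) 𝓘(ℝ, E).tangent ∞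
        (fun x => (⟨x, V x⟩ : TangentBundle 𝓘(ℝ, E) P)) U ∧
      ∀ x ∈ U, mD Φ x (V x) = 0 ∧ mD g x (V x) = 1 := by
  obtain ⟨v, w, h1, h2, h3, h4⟩ := h
  let v' : TangentSpace 𝓘(ℝ, E) p := v
  let w' : TangentSpace 𝓘(ℝ, E) p := w
  let V0 : P → E := fun x => FiberBundle.extend (E := TangentSpace 𝓘(ℝ, E)) E v' x
  let W0 : P → E := fun x => FiberBundle.extend (E := TangentSpace 𝓘(ℝ, E)) E w' x
  have hV0 : V0 p = v := FiberBundle.extend_apply_self (F := E) (E := TangentSpace 𝓘(ℝ, E)) v'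
  have hW0 : W0 p = w := FiberBundle.extend_apply_self (F := E) (E := TangentSpace 𝓘(ℝ, E)) w'
  obtain ⟨s1, hs1, hs1'⟩ := FiberBundle.exists_contMDiffOn_extend (k := ∞) 𝓘(ℝ, E) E v'
  obtain ⟨s2, hs2, hs2'⟩ := FiberBundle.exists_contMDiffOn_extend (k := ∞) 𝓘(ℝ, E) E w'
  obtain ⟨U1, hU1s, hU1, hpU1⟩ := _root_.mem_nhds_iff.1 (Filter.inter_mem hs1 hs2)
  have hV0s : ContMDiffOn 𝓘(ℝ, E) 𝓘(ℝ, E).tangent ∞
      (fun x => (⟨x, V0 x⟩ : TangentBundle 𝓘(ℝ, E) P)) U1 :=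
    hs1'.mono fun x hx => (hU1s hx).1
  have hW0s : ContMDiffOn 𝓘(ℝ, E) 𝓘(ℝ, E).tangent ∞
      (fun x => (⟨x, W0 x⟩ : TangentBundle 𝓘(ℝ, E) P)) U1 :=
    hs2'.mono fun x hx => (hU1s hx).2
  have hat : ∀ x ∈ U1, ContMDiffAt 𝓘(ℝ, E) 𝓘(ℝ, E).tangent ∞
      (fun x => (⟨x, V0 x⟩ : TangentBundle 𝓘(ℝ, E) P)) x ∧
      ContMDiffAt 𝓘(ℝ, E) 𝓘(ℝ, E).tangent ∞
      (fun x => (⟨x, W0 x⟩ : TangentBundle 𝓘(ℝ, E) P)) x := fun x hx =>
    ⟨hV0s.contMDiffAt (hU1.mem_nhds hx), hW0s.contMDiffAt (hU1.mem_nhds hx)⟩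
  let Δ : P → ℝ := fun x => mD Φ x (W0 x) * mD g x (V0 x) - mD Φ x (V0 x) * mD g x (W0 x)
  have hΔ : ∀ x ∈ U1, ContMDiffAt 𝓘(ℝ, E) 𝓘(ℝ, ℝ) ∞ Δ x := fun x hx =>
    ((contMDiffAt_mD hΦ (hat x hx).2).mul (contMDiffAt_mD hg (hat x hx).1)).sub
      ((contMDiffAt_mD hΦ (hat x hx).1).mul (contMDiffAt_mD hg (hat x hx).2))
  have hΔp : Δ p = 1 := by
    show mD Φ p (W0 p) * mD g p (V0 p) - mD Φ p (V0 p) * mD g p (W0 p) = 1
    rw [hV0, hW0, h1, h2, h3, h4]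
    norm_num
  have hΔc : ContinuousOn Δ U1 := fun x hx => (hΔ x hx).continuousAt.continuousWithinAt
  let U : Set P := U1 ∩ Δ ⁻¹' {0}ᶜ
  have hU : IsOpen U := hΔc.isOpen_inter_preimage hU1 isOpen_compl_singleton
  refine ⟨U, fun x => (mD Φ x (W0 x) * (Δ x)⁻¹) • V0 x + (-(mD Φ x (V0 x) * (Δ x)⁻¹)) • W0 x,
    hU, ⟨hpU1, ?_⟩, ?_, ?_⟩
  · show Δ p ≠ 0
    rw [hΔp]; exact one_ne_zero
  · intro x hx
    apply ContMDiffAt.contMDiffWithinAt
    have hΔx : ContMDiffAt 𝓘(ℝ, E) 𝓘(ℝ, ℝ) ∞ (fun x => (Δ x)⁻¹) x :=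
      (hΔ x hx.1).inv₀ hx.2
    have e1 := ((contMDiffAt_mD hΦ (hat x hx.1).2).mul hΔx)
    have e2 := ((contMDiffAt_mD hΦ (hat x hx.1).1).mul hΔx).neg
    exact (e1.smul_section (hat x hx.1).1).add_section (e2.smul_section (hat x hx.1).2)
  · intro x hx
    have hx0 : Δ x ≠ 0 := hx.2
    have e : ∀ f : P → ℝ, mD f x ((mD Φ x (W0 x) * (Δ x)⁻¹) • V0 x +
        (-(mD Φ x (V0 x) * (Δ x)⁻¹)) • W0 x) =
        (mD Φ x (W0 x) * (Δ x)⁻¹) * mD f x (V0 x) +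
          (-(mD Φ x (V0 x) * (Δ x)⁻¹)) * mD f x (W0 x) := by
      intro f
      rw [map_add, map_smul, map_smul, smul_eq_mul, smul_eq_mul]
    constructor
    · rw [e]; ring
    · rw [e]
      have : (mD Φ x (W0 x) * (Δ x)⁻¹) * mD g x (V0 x) +
          (-(mD Φ x (V0 x) * (Δ x)⁻¹)) * mD g x (W0 x) = Δ x * (Δ x)⁻¹ := by
        show _ = (mD Φ x (W0 x) * mD g x (V0 x) - mD Φ x (V0 x) * mD g x (W0 x)) * (Δ x)⁻¹
        ring
      rw [this, mul_inv_cancel₀ hx0]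

/-- **Lifting the values of `g` to a path in a level set of `Φ`.** -/
theorem path_lift [T2Space P] [SigmaCompactSpace P] {Φ g : P → ℝ}
    (hΦ : ContMDiff 𝓘(ℝ, E) 𝓘(ℝ, ℝ) ∞ Φ) (hg : ContMDiff 𝓘(ℝ, E) 𝓘(ℝ, ℝ) ∞ g) {c a b : ℝ}
    (hZ : IsCompact {p | Φ p = c ∧ a ≤ g p ∧ g p ≤ b})
    (hind : ∀ p, Φ p = c → a ≤ g p → g p ≤ b →
      ∃ v w : E, mD Φ p v = 0 ∧ mD g p v = 1 ∧ mD Φ p w = 1 ∧ mD g p w = 0)
    {p0 : P} (h0 : Φ p0 = c) (h0' : g p0 = a) :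
    ∃ γ : ℝ → P, ContMDiff 𝓘(ℝ, ℝ) 𝓘(ℝ, E) ∞ γ ∧
      ∀ t, a ≤ t → t ≤ b → Φ (γ t) = c ∧ g (γ t) = t := by
  have : LocallyCompactSpace P := ChartedSpace.locallyCompactSpace E P
  have : IsManifold 𝓘(ℝ, E) 1 P := IsManifold.of_le (n := ∞) (by simp)
  set Z : Set P := {p | Φ p = c ∧ a ≤ g p ∧ g p ≤ b} with hZdef
  have hloc : ∀ p : Z, ∃ (U : Set P) (V : P → E), IsOpen U ∧ (p : P) ∈ U ∧
      ContMDiffOn 𝓘(ℝ, E) 𝓘(ℝ, E).tangent ∞
        (fun x => (⟨x, V x⟩ : TangentBundle 𝓘(ℝ, E) P)) U ∧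
      ∀ x ∈ U, mD Φ x (V x) = 0 ∧ mD g x (V x) = 1 := fun p =>
    exists_local_field hΦ hg (hind p p.2.1 p.2.2.1 p.2.2.2)
  choose U V hUo hpU hVs hV using hloc
  obtain ⟨N, hN, hZN, hNU⟩ := exists_compact_between hZ (isOpen_iUnion hUo)
    (fun p hp => Set.mem_iUnion.2 ⟨⟨p, hp⟩, hpU ⟨p, hp⟩⟩)
  -- a global field
  obtain ⟨X, hX⟩ := exists_contMDiffSection_forall_mem_convex_of_local (I := 𝓘(ℝ, E))
    (M := P) (n := ⊤) (F_fiber := E) (TangentSpace 𝓘(ℝ, E))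
    (fun p => {v : E | p ∈ N → mD Φ p v = 0 ∧ mD g p v = 1})
    (by
      intro p (v : E) hv (w : E) hw α β hα hβ hαβ hp
      obtain ⟨hv1, hv2⟩ := hv hp
      obtain ⟨hw1, hw2⟩ := hw hp
      constructor
      · have e : mD Φ p (α • v + β • w) = α * mD Φ p v + β * mD Φ p w := by
          rw [map_add, map_smul, map_smul, smul_eq_mul, smul_eq_mul]
        refine e.trans ?_
        rw [hv1, hw1]; ring
      · have e : mD g p (α • v + β • w) = α * mD g p v + β * mD g p w := by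
          rw [map_add, map_smul, map_smul, smul_eq_mul, smul_eq_mul]
        refine e.trans ?_
        rw [hv2, hw2]
        linarith)
    (by
      intro p
      by_cases hp : p ∈ N
      · obtain ⟨q, hq⟩ := Set.mem_iUnion.1 (hNU hp)
        exact ⟨U q, (hUo q).mem_nhds hq, V q, hVs q, fun y hy _ => hV q y hy⟩
      · refine ⟨Nᶜ, hN.isClosed.isOpen_compl.mem_nhds hp, fun _ => 0, ?_, ?_⟩
        · exact (contMDiff_zeroSection ℝ (TangentSpace 𝓘(ℝ, E) : P → Type u)).contMDiffOn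
        · intro y hy hy'
          exact absurd hy' hy)
  have hXs : ContMDiff 𝓘(ℝ, E) 𝓘(ℝ, E).tangent ∞
      (fun x => (⟨x, X x⟩ : TangentBundle 𝓘(ℝ, E) P)) := X.contMDiff
  obtain ⟨χ, K', hχ, hK', -, h1, h2⟩ := exists_cutoff 𝓘(ℝ, E) hN isOpen_univ (subset_univ N)
  have hW : ContMDiff 𝓘(ℝ, E) 𝓘(ℝ, E).tangent ∞
      (fun x => (⟨x, χ x • X x⟩ : TangentBundle 𝓘(ℝ, E) P)) :=
    hχ.smul_section hXs
  have h3 : ∀ x, ∃ c : ℝ → P, c 0 = x ∧ IsMIntegralCurve (I := 𝓘(ℝ, E)) c (fun x => χ x • X x) :=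
    fun x => complete_of_compact hW hK' (fun x hx => by rw [h2 x hx, zero_smul]) x
  choose Fl hFl0 hFl using h3
  have hFs : ContMDiff (𝓘(ℝ, E).prod 𝓘(ℝ, ℝ)) 𝓘(ℝ, E) ∞ (fun p : P × ℝ => Fl p.1 p.2) :=
    contMDiff_flow hW hFl0 hFl
  have hγs : ContMDiff 𝓘(ℝ, ℝ) 𝓘(ℝ, E) ∞ (Fl p0) :=
    hFs.comp (contMDiff_const.prodMk contMDiff_id)
  have hγc : Continuous (Fl p0) := hγs.continuous
  -- the derivatives along the curve, inside `N`
  have hder : ∀ s, Fl p0 s ∈ N → HasDerivAt (fun s => Φ (Fl p0 s)) 0 s ∧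
      HasDerivAt (fun s => g (Fl p0 s) - s) 0 s := by
    intro s hs
    have hχ1 : χ (Fl p0 s) = 1 := (h1.self_of_nhdsSet) _ hs
    obtain ⟨e1, e2⟩ := hX (Fl p0 s) hs
    constructor
    · refine (hasDerivAt_along (W := fun x => χ x • X x) (hFl p0 s) hΦ).congr_deriv ?_
      rw [hχ1, one_smul]
      exact e1
    · have := (hasDerivAt_along (W := fun x => χ x • X x) (hFl p0 s) hg).sub (hasDerivAt_id s)
      refine this.congr_deriv ?_
      rw [hχ1, one_smul]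
      have e3 : dForm 𝓘(ℝ, E) g (Fl p0 s) (X (Fl p0 s)) = 1 := e2
      rw [e3]; ring
  let S : Set ℝ := {s | Φ (Fl p0 s) = c ∧ g (Fl p0 s) - s = a}
  have hSc : IsClosed S :=
    (isClosed_eq (hΦ.continuous.comp hγc) continuous_const).inter
      (isClosed_eq ((hg.continuous.comp hγc).sub continuous_id) continuous_const)
  have hS0 : (0 : ℝ) ∈ S := by
    refine ⟨?_, ?_⟩
    · rw [hFl0]; exact h0
    · rw [hFl0, h0', sub_zero]
  have hSI : Icc 0 (b - a) ⊆ S := by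
    refine (hSc.inter isClosed_Icc).Icc_subset_of_forall_exists_gt hS0 ?_
    rintro x ⟨⟨hx1, hx2⟩, hx3, hx4⟩ y hy
    have hq : Fl p0 x ∈ Z := ⟨hx1, by linarith, by linarith⟩
    have hnb : ∀ᶠ s in 𝓝 x, Fl p0 s ∈ interior N :=
      hγc.continuousAt.preimage_mem_nhds (isOpen_interior.mem_nhds (hZN hq))
    obtain ⟨ε, hε, hball⟩ := Metric.eventually_nhds_iff.1 hnb
    have hy' : x < y := hy
    set y' := min y (x + ε / 2) with hy'def
    have hxy' : x < y' := lt_min hy' (by linarith)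
    have hyy : y' ≤ y := min_le_left _ _
    have hye : y' ≤ x + ε / 2 := min_le_right _ _
    have hin : ∀ s ∈ Icc x y', Fl p0 s ∈ N := by
      intro s hs
      apply interior_subset
      apply hball
      rw [Real.dist_eq, abs_lt]
      constructor <;> linarith [hs.1, hs.2]
    have c1 := constant_of_has_deriv_right_zero (f := fun s => Φ (Fl p0 s)) (a := x) (b := y')
      (hΦ.continuous.comp hγc).continuousOn
      (fun s hs => ((hder s (hin s (Ico_subset_Icc_self hs))).1).hasDerivWithinAt)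
      y' (right_mem_Icc.2 hxy'.le)
    have c2 := constant_of_has_deriv_right_zero (f := fun s => g (Fl p0 s) - s) (a := x) (b := y')
      ((hg.continuous.comp hγc).sub continuous_id).continuousOn
      (fun s hs => ((hder s (hin s (Ico_subset_Icc_self hs))).2).hasDerivWithinAt)
      y' (right_mem_Icc.2 hxy'.le)
    exact ⟨y', ⟨c1.trans hx1, c2.trans hx2⟩, hxy', hyy⟩
  refine ⟨fun t => Fl p0 (t - a), hγs.comp ?_, ?_⟩
  · exact (contDiff_id.sub contDiff_const).contMDiff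
  · intro t ht1 ht2
    obtain ⟨e1, e2⟩ := hSI (show t - a ∈ Icc 0 (b - a) from ⟨by linarith, by linarith⟩)
    exact ⟨e1, by linarith⟩

end Pool.Agent.H21.WS
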