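import Mathlib
import Pool.Agent.H21.WS.Defs
import Pool.Agent.H21.WS.NoExact
import Pool.Agent.H21.WS.Path
import Pool.Graph.R_pool_sql_team_seeded_64922ed1.X167.W.Stab

/-! Hamiltonians `F (x, G y)` on `S × T` with an arbitrary first factor. -/

open Set Filter Module Pool.Agent.Helper186 Pool.Agent.X167.W Pool.Agent.H21.WS
open scoped Topology ContDiff Manifold

noncomputable section

namespace Pool.Agent.H21.WS

universe u

variable {S T : Sys.{u}} {F : S.M × ℝ → ℝ} {G : T.M → ℝ} {c : ℝ}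

lemma bil_zero {V : Type*} [NormedAddCommGroup V] [NormedSpace ℝ V] (B : V →L[ℝ] V →L[ℝ] ℝ)
    {w : V} (h : B w w = 0) (a b : ℝ) : B (a • w) (b • w) = 0 := by
  simp [h]

lemma lin_one {V : Type*} [NormedAddCommGroup V] [NormedSpace ℝ V] (L : ℝ →L[ℝ] V) (r : ℝ) :
    L r = r • L 1 := by
  rw [← map_smul, smul_eq_mul, mul_one]

/-- Either the first variable is at rest at a point of the level set, or the second factor is
compact and every point of it is the projection of a point of the level set. -/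
theorem compact_or_rest [ConnectedSpace T.M] (hF : S.Smooth2 F) (hG : T.Smooth G)
    (hne : ∃ p : S.M × T.M, F (p.1, G p.2) = c)
    (hcpt : IsCompact {p : S.M × T.M | F (p.1, G p.2) = c})
    (hrest : ∀ (x : S.M) (y : T.M), F (x, G y) = c → S.d (fun x => F (x, G y)) x ≠ 0) :
    CompactSpace T.M ∧ ∀ y, ∃ x, F (x, G y) = c := by
  have hFc : Continuous F := ContMDiff.continuous hF
  have hGc : Continuous G := ContMDiff.continuous hG
  set K : Set T.M := Prod.snd '' {p : S.M × T.M | F (p.1, G p.2) = c} with hK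
  have hKc : IsCompact K := hcpt.image continuous_snd
  have hKo : IsOpen K := by
    rw [isOpen_iff_mem_nhds]
    rintro _ ⟨⟨x, y⟩, hxy, rfl⟩
    have hxy' : F (x, G y) = c := hxy
    have : LocallyConnectedSpace S.M := ChartedSpace.locallyConnectedSpace S.E S.M
    obtain ⟨U, ⟨hUo, hxU, hUc⟩, -⟩ := (LocallyConnectedSpace.open_connected_basis x).mem_iff.1
      (Filter.univ_mem : (univ : Set S.M) ∈ 𝓝 x)
    have hU : U ∈ 𝓝 x := hUo.mem_nhds hxU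
    obtain ⟨a, haU, ha⟩ := Sys.exists_gt (hrest x y hxy') hU
    obtain ⟨b, hbU, hb⟩ := Sys.exists_lt (hrest x y hxy') hU
    simp only [hxy'] at ha hb
    have h1 : ∀ᶠ y' in 𝓝 y, c < F (a, G y') := by
      have : ContinuousAt (fun y' => F (a, G y')) y := by fun_prop
      exact this.eventually (lt_mem_nhds ha)
    have h2 : ∀ᶠ y' in 𝓝 y, F (b, G y') < c := by
      have : ContinuousAt (fun y' => F (b, G y')) y := by fun_prop
      exact this.eventually (gt_mem_nhds hb)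
    filter_upwards [h1, h2] with y' hy1 hy2
    have hcont : ContinuousOn (fun x' => F (x', G y')) U := by fun_prop
    obtain ⟨x', -, hx'⟩ := hUc.isPreconnected.intermediate_value hbU haU hcont ⟨hy2.le, hy1.le⟩
    exact ⟨(x', y'), hx', rfl⟩
  have hKn : K.Nonempty := by
    obtain ⟨p, hp⟩ := hne
    exact ⟨p.2, p, hp, rfl⟩
  have hKu : K = univ := IsClopen.eq_univ ⟨hKc.isClosed, hKo⟩ hKn
  refine ⟨⟨hKu ▸ hKc⟩, fun y => ?_⟩
  have : y ∈ K := by rw [hKu]; trivial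
  obtain ⟨⟨x, y'⟩, hxy, rfl⟩ := this
  exact ⟨x, hxy⟩

/-- **The second factor is not compact, if `ω` is exact near the level set.** -/
theorem rest_of_exact [ConnectedSpace T.M] (hSa : ∀ (x : S.M) (u : S.E), S.om x u u = 0)
    (hTn : ∀ (y : T.M) (u : T.E), (∀ v, T.om y u v = 0) → u = 0)
    (hdim : 0 < finrank ℝ T.E) (hF : S.Smooth2 F) (hG : T.Smooth G)
    (hne : ∃ p : S.M × T.M, F (p.1, G p.2) = c)
    (hcpt : IsCompact {p : S.M × T.M | F (p.1, G p.2) = c})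
    {θ : OneForm (S.prod T)} (hθ : SmoothForm θ)
    (hprim : ∀ p : S.M × T.M, F (p.1, G p.2) = c → IsPrimitiveAt (S.prod T) θ p) :
    ∃ (x : S.M) (y : T.M), F (x, G y) = c ∧ S.d (fun x => F (x, G y)) x = 0 := by
  by_contra hno
  push Not at hno
  obtain ⟨hcT, hsurj⟩ := compact_or_rest hF hG hne hcpt hno
  have hFc : Continuous F := ContMDiff.continuous hF
  have hGc : Continuous G := ContMDiff.continuous hG
  obtain ⟨ya, -, hya⟩ := isCompact_univ.exists_isMinOn (univ_nonempty (α := T.M)) hGc.continuousOn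
  obtain ⟨yb, -, hyb⟩ := isCompact_univ.exists_isMaxOn (univ_nonempty (α := T.M)) hGc.continuousOn
  have hya' : ∀ y, G ya ≤ G y := fun y => hya (mem_univ y)
  have hyb' : ∀ y, G y ≤ G yb := fun y => hyb (mem_univ y)
  -- the manifold `S × ℝ`
  let _ : ChartedSpace (S.E × ℝ) (S.M × ℝ) :=
    (inferInstance : ChartedSpace (ModelProd S.E ℝ) (S.M × ℝ))
  have : IsManifold 𝓘(ℝ, S.E × ℝ) ∞ (S.M × ℝ) :=
    (modelWithCornersSelf_prod (𝕜 := ℝ) (E := S.E) (F := ℝ)) ▸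
      (inferInstance : IsManifold (𝓘(ℝ, S.E).prod 𝓘(ℝ, ℝ)) ∞ (S.M × ℝ))
  have hF' : ContMDiff 𝓘(ℝ, S.E × ℝ) 𝓘(ℝ, ℝ) ∞ F := hF
  have hsnd : ContMDiff 𝓘(ℝ, S.E × ℝ) 𝓘(ℝ, ℝ) ∞ (fun p : S.M × ℝ => p.2) :=
    (contMDiff_snd : ContMDiff (𝓘(ℝ, S.E).prod 𝓘(ℝ, ℝ)) 𝓘(ℝ, ℝ) ∞ (fun p : S.M × ℝ => p.2))
  have hZ : IsCompact {p : S.M × ℝ | F p = c ∧ G ya ≤ p.2 ∧ p.2 ≤ G yb} := by
    have h1 : {p : S.M × ℝ | F p = c ∧ G ya ≤ p.2 ∧ p.2 ≤ G yb} =
        (fun p : S.M × T.M => (p.1, G p.2)) '' {p : S.M × T.M | F (p.1, G p.2) = c} := by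
      ext ⟨x, g⟩
      constructor
      · rintro ⟨h1, h2, h3⟩
        obtain ⟨y, hy⟩ := mem_range_of_exists_le_of_exists_ge hGc ⟨ya, h2⟩ ⟨yb, h3⟩
        subst hy
        exact ⟨(x, y), h1, rfl⟩
      · rintro ⟨⟨x', y⟩, h1, h2⟩
        simp only [Prod.mk.injEq] at h2
        obtain ⟨rfl, rfl⟩ := h2
        exact ⟨h1, hya' y, hyb' y⟩
    rw [h1]
    exact hcpt.image (by fun_prop)
  obtain ⟨x0, hx0⟩ := hsurj ya
  have hDsnd : ∀ (p : S.M × ℝ) (w : S.E × ℝ), mD (fun p : S.M × ℝ => p.2) p w = w.2 := by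
    intro p w
    have h1 : HasMFDerivAt (𝓘(ℝ, S.E).prod 𝓘(ℝ, ℝ)) 𝓘(ℝ, ℝ) (fun p : S.M × ℝ => p.2) p
        (ContinuousLinearMap.snd ℝ S.E ℝ) := hasMFDerivAt_snd p
    exact DFunLike.congr_fun h1.mfderiv w
  have hDF : ∀ (p : S.M × ℝ) (w : S.E × ℝ), mD F p w = DF F p w := fun p w => rfl
  obtain ⟨γ, hγ, hγ'⟩ := path_lift (P := S.M × ℝ) (E := S.E × ℝ) hF' hsnd hZ
    (by
      rintro ⟨x, g⟩ h1 h2 h3
      obtain ⟨y, hy⟩ := mem_range_of_exists_le_of_exists_ge hGc ⟨ya, h2⟩ ⟨yb, h3⟩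
      subst hy
      have h4 := hno x y h1
      obtain ⟨w, hw⟩ : ∃ w : S.E, S.d (fun x => F (x, G y)) x w ≠ 0 := by
        by_contra h5
        push Not at h5
        exact h4 (ContinuousLinearMap.ext h5)
      rw [d_slice hF] at hw
      set k := DF F (x, G y) (w, 0) with hk
      set l := DF F (x, G y) (0, 1) with hl
      have e1 : ∀ (r : ℝ) (t : ℝ), DF F (x, G y) (r • w, t) = r * k + t * l := by
        intro r t
        have : ((r • w, t) : S.E × ℝ) = r • ((w, 0) : S.E × ℝ) + t • ((0, 1) : S.E × ℝ) := by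
          ext <;> simp
        rw [this, map_add, map_smul, map_smul, smul_eq_mul, smul_eq_mul]
      refine ⟨((-(l / k)) • w, 1), ((1 / k) • w, 0), ?_, ?_, ?_, ?_⟩
      · rw [hDF, e1]; field_simp; ring
      · rw [hDsnd]
      · rw [hDF, e1]; field_simp; ring
      · rw [hDsnd])
    (p0 := (x0, G ya)) hx0 rfl
  -- the section
  let s : ℝ → S.M := fun t => (γ t).1
  have hs : ContMDiff 𝓘(ℝ, ℝ) 𝓘(ℝ, S.E) ∞ s := by
    have h1 : ContMDiff 𝓘(ℝ, ℝ) (𝓘(ℝ, S.E).prod 𝓘(ℝ, ℝ)) ∞ γ := hγ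
    exact contMDiff_fst.comp h1
  have hsF : ∀ y : T.M, F (s (G y), G y) = c := by
    intro y
    obtain ⟨h1, h2⟩ := hγ' (G y) (hya' y) (hyb' y)
    have h3 : γ (G y) = (s (G y), G y) := Prod.ext rfl h2
    rw [← h3]; exact h1
  let σ : T.M → (S.prod T).M := fun y => (s (G y), y)
  have hσ' : ContMDiff 𝓘(ℝ, T.E) (𝓘(ℝ, S.E).prod 𝓘(ℝ, T.E)) ∞
      (fun y : T.M => (s (G y), y)) := (hs.comp hG).prodMk contMDiff_id
  have hσ : ContMDiff 𝓘(ℝ, T.E) 𝓘(ℝ, (S.prod T).E) ∞ σ := hσ'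
  have hdσ : ∀ (y : T.M) (u : T.E), ∃ w : S.E, ∀ u : T.E,
      (mfderiv 𝓘(ℝ, T.E) 𝓘(ℝ, (S.prod T).E) σ y u : S.E × T.E) = (T.d G y u • w, u) := by
    intro y u
    refine ⟨mfderiv 𝓘(ℝ, ℝ) 𝓘(ℝ, S.E) s (G y) (1 : ℝ), fun u => ?_⟩
    have h1 : HasMFDerivAt 𝓘(ℝ, T.E) 𝓘(ℝ, S.E) (fun y => s (G y)) y
        ((mfderiv 𝓘(ℝ, ℝ) 𝓘(ℝ, S.E) s (G y)).comp (T.d G y)) :=
      HasMFDerivAt.comp (g := s) (f := G) y (hs.mdifferentiableAt (by simp)).hasMFDerivAt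
        (Sys.hasD hG y)
    have h2 : HasMFDerivAt 𝓘(ℝ, T.E) (𝓘(ℝ, S.E).prod 𝓘(ℝ, T.E)) (fun y : T.M => (s (G y), y)) y
        (((mfderiv 𝓘(ℝ, ℝ) 𝓘(ℝ, S.E) s (G y)).comp (T.d G y)).prod
          (ContinuousLinearMap.id ℝ T.E)) := h1.prodMk (hasMFDerivAt_id y)
    have h3 := DFunLike.congr_fun h2.mfderiv u
    refine Eq.trans h3 ?_
    refine Prod.ext ?_ rfl
    exact lin_one (V := S.E) (mfderiv 𝓘(ℝ, ℝ) 𝓘(ℝ, S.E) s (G y)) (T.d G y u)
  -- the pull back of the primitive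
  refine no_exact (M := T.M) (θ := pullForm 𝓘(ℝ, (S.prod T).E) 𝓘(ℝ, T.E) σ θ) hdim
    (smoothForm_pull hσ hθ) ?_
  intro y u hu
  apply hTn y u
  intro v
  have h1 := hu v
  have h2 := extDer_pull (I := 𝓘(ℝ, (S.prod T).E)) (J := 𝓘(ℝ, T.E)) hσ hθ y u v
  have h3 := h2.symm.trans h1
  have h4 : (S.prod T).form (σ y) (mfderiv 𝓘(ℝ, T.E) 𝓘(ℝ, (S.prod T).E) σ y u)
      (mfderiv 𝓘(ℝ, T.E) 𝓘(ℝ, (S.prod T).E) σ y v) = 0 :=
    (hprim (σ y) (hsF y) _ _).symm.trans h3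
  obtain ⟨w, hw⟩ := hdσ y u
  rw [hw u, hw v, prod_form_apply] at h4
  have h5 : S.form (σ y).1 (T.d G y u • w) (T.d G y v • w) = 0 := by
    exact bil_zero (S.form (s (G y))) (hSa _ w) _ _
  have h6 : S.form (σ y).1 (T.d G y u • w) (T.d G y v • w) + T.form (σ y).2 u v = 0 := h4
  rw [h5, zero_add] at h6
  exact h6

end Pool.Agent.H21.WS
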