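import Mathlib
import Pool.Agent.H21.WS.Main

/-! Hamiltonians `F (x, G y)` on `S × T` with an arbitrary first factor: the theorems. -/

open Set Filter Module Pool.Agent.Helper186 Pool.Agent.X167.W Pool.Agent.H21.WS
open scoped Topology ContDiff Manifold

noncomputable section

namespace Pool.Agent.H21.WS

universe u

variable {S T : Sys.{u}} {F : S.M × ℝ → ℝ} {G : T.M → ℝ} {c : ℝ}

/-- the differential of `F (x, G y)` does not vanish: the second variable -/
lemma reg_second (hF : S.Smooth2 F) (hG : T.Smooth G)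
    (hreg : ∀ p : S.M × T.M, F (p.1, G p.2) = c →
      (S.prod T).d (fun p => F (p.1, G p.2)) p ≠ 0) {x : S.M} {y : T.M} (h : F (x, G y) = c)
    (h0 : S.d (fun x => F (x, G y)) x = 0) : DF F (x, G y) (0, 1) ≠ 0 ∧ T.d G y ≠ 0 := by
  have h3 := hreg (x, y) h
  constructor
  · intro h4
    apply h3
    ext ⟨a, b⟩
    rw [d_comp hF hG, h0, h4]
    simp
  · intro h4
    apply h3
    ext ⟨a, b⟩
    rw [d_comp hF hG, h0, h4]
    simp

/-- the level set of `G` through the point is compact -/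
lemma compact_slice (hF : S.Smooth2 F) (hG : T.Smooth G)
    (hcpt : IsCompact {p : S.M × T.M | F (p.1, G p.2) = c}) {x : S.M} {y : T.M}
    (hxy' : F (x, G y) = c) : IsCompact {y' | G y' = G y} := by
  have hFc : Continuous F := ContMDiff.continuous hF
  have hGc : Continuous G := ContMDiff.continuous hG
  have h3 : {y' | G y' = G y} = Prod.snd '' ({p : S.M × T.M | F (p.1, G p.2) = c} ∩
      {p | p.1 = x ∧ G p.2 = G y}) := by
    ext y'
    constructor
    · intro h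
      have h' : G y' = G y := h
      exact ⟨(x, y'), ⟨show F (x, G y') = c by rw [h']; exact hxy', rfl, h⟩, rfl⟩
    · rintro ⟨⟨x'', y''⟩, ⟨-, -, h⟩, rfl⟩
      exact h
  rw [h3]
  refine (hcpt.inter_right ?_).image continuous_snd
  exact (isClosed_singleton.preimage continuous_fst).inter
    (isClosed_eq (by fun_prop) continuous_const)

/-- The periodic orbits over a critical point of the first factor. -/
lemma orbit_of_slice (hF : S.Smooth2 F) (hG : T.Smooth G)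
    {x : S.M} {y : T.M} (hxy' : F (x, G y) = c) (hx0 : S.d (fun x => F (x, G y)) x = 0)
    (hκ : DF F (x, G y) (0, 1) ≠ 0) {γ : ℝ → T.M} {T0 : ℝ} (hγ : T.IsPeriodic G γ T0)
    (hval : ∀ t, G (γ t) = G y) :
    ∃ (δ : ℝ → T.M) (P : ℝ), (S.prod T).IsPeriodic (fun p => F (p.1, G p.2))
      (fun t => (x, δ t)) P ∧ ∀ t, F (x, G (δ t)) = c := by
  set κ := DF F (x, G y) (0, 1) with hκdef
  refine ⟨fun t => γ (κ * t), T0 / |κ|, ⟨div_pos hγ.pos (abs_pos.2 hκ), fun t => ?_,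
    fun t => ?_⟩, fun t => ?_⟩
  · show (x, γ (κ * (t + T0 / |κ|))) = (x, γ (κ * t))
    congr 1
    rcases lt_or_gt_of_ne hκ with h | h
    · have e : κ * (t + T0 / |κ|) = κ * t - T0 := by
        rw [abs_of_neg h]; field_simp; ring
      rw [e]
      have := hγ.period (κ * t - T0)
      rw [sub_add_cancel] at this
      exact this.symm
    · have e : κ * (t + T0 / |κ|) = κ * t + T0 := by
        rw [abs_of_pos h]; field_simp
      rw [e]
      exact hγ.period _
  · obtain ⟨X, hX, hX'⟩ := hγ.orbit (κ * t)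
    refine ⟨(0, κ • X), ?_, ?_⟩
    · have h3 : HasMFDerivAt 𝓘(ℝ, ℝ) 𝓘(ℝ, ℝ) (fun t : ℝ => κ * t) t
          ((1 : ℝ →L[ℝ] ℝ).smulRight κ) := by
        have h4 : HasDerivAt (fun t : ℝ => κ * t) κ t := by
          simpa using (hasDerivAt_id t).const_mul κ
        exact h4.hasFDerivAt.hasMFDerivAt
      have h4 : HasMFDerivAt 𝓘(ℝ, ℝ) 𝓘(ℝ, T.E) (fun t => γ (κ * t)) t
          ((1 : ℝ →L[ℝ] ℝ).smulRight (κ • X)) := by
        have h5 := HasMFDerivAt.comp t hX h3
        refine h5.congr_mfderiv ?_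
        refine ContinuousLinearMap.ext fun (r : ℝ) => ?_
        show (r * κ) • X = r • (κ • X)
        rw [mul_smul]
      have h5 : HasMFDerivAt 𝓘(ℝ, ℝ) (𝓘(ℝ, S.E).prod 𝓘(ℝ, T.E)) (fun t => (x, γ (κ * t))) t
          ((0 : ℝ →L[ℝ] S.E).prod ((1 : ℝ →L[ℝ] ℝ).smulRight (κ • X))) :=
        (hasMFDerivAt_const x t).prodMk h4
      have h6 : ((0 : ℝ →L[ℝ] S.E).prod ((1 : ℝ →L[ℝ] ℝ).smulRight (κ • X))) =
          (1 : ℝ →L[ℝ] ℝ).smulRight ((0, κ • X) : S.E × T.E) := by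
        ext <;> simp
      rw [h6] at h5
      exact h5
    · rintro ⟨a, b⟩
      have hv : G (γ (κ * t)) = G y := hval _
      have hX2 : T.form (γ (κ * t)) X b = - T.d G (γ (κ * t)) b := hX' b
      show (S.prod T).form (x, γ (κ * t)) (0, κ • X) (a, b) =
        - (S.prod T).d (fun p => F (p.1, G p.2)) (x, γ (κ * t)) (a, b)
      rw [prod_form_apply, d_comp hF hG]
      simp only [map_zero, _root_.zero_apply, zero_add, map_smul,
        _root_.smul_apply, smul_eq_mul]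
      rw [hv, hx0, ← hκdef, hX2]
      simp
  · show F (x, G (γ (κ * t))) = c
    rw [hval]
    exact hxy'

/-- **The first variable is at rest somewhere.** -/
theorem exists_rest [ConnectedSpace T.M] (hSa : ∀ (x : S.M) (u : S.E), S.om x u u = 0)
    (hTn : ∀ (y : T.M) (u : T.E), (∀ v, T.om y u v = 0) → u = 0)
    (hdim : 0 < finrank ℝ T.E) (hF : S.Smooth2 F) (hG : T.Smooth G)
    (hne : ∃ p : S.M × T.M, F (p.1, G p.2) = c)
    (hcpt : IsCompact {p : S.M × T.M | F (p.1, G p.2) = c})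
    (h : ¬ CompactSpace T.M ∨ ∃ θ : OneForm (S.prod T), SmoothForm θ ∧
      ∀ p : S.M × T.M, F (p.1, G p.2) = c → IsPrimitiveAt (S.prod T) θ p) :
    ∃ (x : S.M) (y : T.M), F (x, G y) = c ∧ S.d (fun x => F (x, G y)) x = 0 := by
  rcases h with h | ⟨θ, hθ, hprim⟩
  · by_contra hno
    push Not at hno
    exact h (compact_or_rest hF hG hne hcpt hno).1
  · exact rest_of_exact hSa hTn hdim hF hG hne hcpt hθ hprim

/-- **Arbitrary first factor, closing second factor.** -/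
theorem closes_exact [ConnectedSpace T.M] (hSa : ∀ (x : S.M) (u : S.E), S.om x u u = 0)
    (hTn : ∀ (y : T.M) (u : T.E), (∀ v, T.om y u v = 0) → u = 0)
    (hdim : 0 < finrank ℝ T.E) (hF : S.Smooth2 F) (hG : T.Smooth G) (hcl : T.Closes G)
    (hne : ∃ p : S.M × T.M, F (p.1, G p.2) = c)
    (hcpt : IsCompact {p : S.M × T.M | F (p.1, G p.2) = c})
    (hreg : ∀ p : S.M × T.M, F (p.1, G p.2) = c →
      (S.prod T).d (fun p => F (p.1, G p.2)) p ≠ 0)
    (h : ¬ CompactSpace T.M ∨ ∃ θ : OneForm (S.prod T), SmoothForm θ ∧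
      ∀ p : S.M × T.M, F (p.1, G p.2) = c → IsPrimitiveAt (S.prod T) θ p) :
    ∃ (x : S.M) (δ : ℝ → T.M) (P : ℝ), (S.prod T).IsPeriodic (fun p => F (p.1, G p.2))
      (fun t => (x, δ t)) P ∧ ∀ t, F (x, G (δ t)) = c := by
  obtain ⟨x, y, hxy, hx0⟩ := exists_rest hSa hTn hdim hF hG hne hcpt h
  obtain ⟨hκ, -⟩ := reg_second hF hG hreg hxy hx0
  obtain ⟨γ, T0, hγ, hval⟩ := hcl (G y) ⟨y, rfl⟩ (compact_slice hF hG hcpt hxy)
    (fun y' hy' => by
      have h3 : F (x, G y') = c := by rw [hy']; exact hxy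
      exact (reg_second hF hG hreg h3 (by rw [hy']; exact hx0)).2)
  obtain ⟨δ, P, h1, h2⟩ := orbit_of_slice hF hG hxy hx0 hκ hγ hval
  exact ⟨x, δ, P, h1, h2⟩

/-- **Contact type: arbitrary first factor.** -/
theorem closes_contact [ConnectedSpace T.M] (hSa : ∀ (x : S.M) (u : S.E), S.om x u u = 0)
    (hTn : ∀ (y : T.M) (u : T.E), (∀ v, T.om y u v = 0) → u = 0)
    (hdim : 0 < finrank ℝ T.E) (hF : S.Smooth2 F) (hG : T.Smooth G) (hW : Weinstein T G)
    (hc : RegularLevel (S.prod T) (fun p : S.M × T.M => F (p.1, G p.2)) c)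
    (hct : ContactType (S.prod T) (fun p : S.M × T.M => F (p.1, G p.2)) c) :
    ∃ (x : S.M) (δ : ℝ → T.M) (P : ℝ), (S.prod T).IsPeriodic (fun p => F (p.1, G p.2))
      (fun t => (x, δ t)) P ∧ ∀ t, F (x, G (δ t)) = c := by
  obtain ⟨hne, hcpt, hreg⟩ := hc
  obtain ⟨θ, hθ, hprim, hpos⟩ := hct
  have hprim' : ∀ p : S.M × T.M, F (p.1, G p.2) = c → IsPrimitiveAt (S.prod T) θ p :=
    fun p hp => hprim.self_of_nhdsSet p hp
  obtain ⟨x, y, hxy, hx0⟩ := exists_rest hSa hTn hdim hF hG hne hcpt (Or.inr ⟨θ, hθ, hprim'⟩)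
  obtain ⟨hκ, -⟩ := reg_second hF hG hreg hxy hx0
  -- the slice
  let j : T.M → (S.prod T).M := fun y => (x, y)
  have hj' : ContMDiff 𝓘(ℝ, T.E) (𝓘(ℝ, S.E).prod 𝓘(ℝ, T.E)) ∞ (fun y : T.M => (x, y)) :=
    contMDiff_const.prodMk contMDiff_id
  have hj : ContMDiff 𝓘(ℝ, T.E) 𝓘(ℝ, (S.prod T).E) ∞ j := hj'
  have hdj : ∀ (y : T.M) (u : T.E),
      (mfderiv 𝓘(ℝ, T.E) 𝓘(ℝ, (S.prod T).E) j y u : S.E × T.E) = (0, u) := by
    intro y u
    have h2 : HasMFDerivAt 𝓘(ℝ, T.E) (𝓘(ℝ, S.E).prod 𝓘(ℝ, T.E)) (fun y : T.M => (x, y)) y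
        ((0 : T.E →L[ℝ] S.E).prod (ContinuousLinearMap.id ℝ T.E)) :=
      (hasMFDerivAt_const x y).prodMk (hasMFDerivAt_id y)
    exact DFunLike.congr_fun h2.mfderiv u
  have hlev : ∀ y', G y' = G y → F (x, G y') = c := fun y' hy' => by rw [hy']; exact hxy
  have hcT : ContactType T G (G y) := by
    refine ⟨pullForm 𝓘(ℝ, (S.prod T).E) 𝓘(ℝ, T.E) j θ, smoothForm_pull hj hθ, ?_, ?_⟩
    · have h1 : Tendsto j (𝓝ˢ {y' | G y' = G y}) (𝓝ˢ {p | F (p.1, G p.2) = c}) :=
        (hj.continuous).tendsto_nhdsSet fun y' hy' => hlev y' hy'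
      filter_upwards [h1.eventually hprim] with y' hy' u v
      have h2 := extDer_pull (I := 𝓘(ℝ, (S.prod T).E)) (J := 𝓘(ℝ, T.E)) hj hθ y' u v
      refine h2.trans ((hy' _ _).trans ?_)
      have h3 : (S.prod T).form (j y') (mfderiv 𝓘(ℝ, T.E) 𝓘(ℝ, (S.prod T).E) j y' u)
          (mfderiv 𝓘(ℝ, T.E) 𝓘(ℝ, (S.prod T).E) j y' v) = T.om y' u v := by
        rw [hdj y' u, hdj y' v, prod_form_apply]
        simp [j]
      exact h3
    · intro y' hy' X hX h0
      have hx0' : S.d (fun x => F (x, G y')) x = 0 := by rw [hy']; exact hx0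
      refine hpos (x, y') (hlev y' hy') (0, DF F (x, G y') (0, 1) • X) ?_ ?_
      · rintro ⟨a, b⟩
        show (S.prod T).form (x, y') (0, DF F (x, G y') (0, 1) • X) (a, b) =
          - (S.prod T).d (fun p => F (p.1, G p.2)) (x, y') (a, b)
        have hX2 : T.form y' X b = - T.d G y' b := hX b
        rw [prod_form_apply, d_comp hF hG]
        simp only [map_zero, _root_.zero_apply, zero_add, map_smul,
          _root_.smul_apply, smul_eq_mul]
        rw [hx0', hX2]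
        simp
      · have e1 : θ (x, y') ((mfderiv 𝓘(ℝ, T.E) 𝓘(ℝ, (S.prod T).E) j y' X : S.E × T.E)) = 0 := h0
        rw [hdj y' X] at e1
        have e2 : ((0, DF F (x, G y') (0, 1) • X) : S.E × T.E) =
            DF F (x, G y') (0, 1) • ((0, X) : S.E × T.E) := by
          ext <;> simp
        have e3 : ∀ w : S.E × T.E, θ (x, y') (DF F (x, G y') (0, 1) • w) =
            DF F (x, G y') (0, 1) • θ (x, y') w := fun w => map_smul (θ (x, y')) _ w
        rw [e2]
        refine (e3 _).trans ?_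
        rw [e1, smul_zero]
  obtain ⟨γ, T0, hγ, hval⟩ := hW (G y) ⟨⟨y, rfl⟩, compact_slice hF hG hcpt hxy,
    fun y' hy' => (reg_second hF hG hreg (hlev y' hy') (by rw [hy']; exact hx0)).2⟩ hcT
  obtain ⟨δ, P, h1, h2⟩ := orbit_of_slice hF hG hxy hx0 hκ hγ hval
  exact ⟨x, δ, P, h1, h2⟩

end Pool.Agent.H21.WS
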