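import Mathlib
import Pool.Agent.H21.WS.Fin

/-!
# The Weinstein conjecture for Hamiltonians `F (x, G y)` on `S × T` with an arbitrary first factor

`S` is an arbitrary symplectic manifold of any dimension (the form only has to be alternating), `F` is
an arbitrary smooth function, `T` is connected and `G` is any smooth function on it. Each compact
regular level set of contact type of `H (x, y) = F (x, G y)` carries a periodic orbit, on which `x` is
constant, if `T` is a symplectic surface, or if `G` satisfies the Weinstein conjecture on `T`.

If `T` is a surface (or all compact regular level sets of `G` carry periodic orbits), contact type can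
be weakened to: the form `ω_S ⊕ ω_T` is exact at the level set; and no such assumption is needed if
`T` is not compact.

Idea of the proof. If `d_x F (x, G y) = 0` at a point of the level set `Σ` then `{x} × {G = G y}` is a
compact regular invariant piece of `Σ`, of contact type in `T` if `Σ` is of contact type. Otherwise the
projection of `Σ` to `T` is a submersion, `T` is compact, and there is a section `y ↦ (s (G y), y)` of
`Σ → T`, by an ordinary differential equation. The form pulls back to `ω_T`, since `s (G y)` depends on
one parameter only. But a closed manifold of positive dimension has no exact nondegenerate two-form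
(divergence theorem for the Liouville field).
-/

open scoped Topology ContDiff Manifold
open Pool.Agent.X167.W Pool.Agent.H21.WS

noncomputable section

namespace Pool.Agent.H21.WS.ArbitraryFirst

universe u

theorem result (S T : Sys.{u}) [ConnectedSpace T.M]
    -- the form of `S` is alternating; the form of `T` is nondegenerate and `dim T > 0`
    (hS : ∀ (x : S.M) (u : S.E), S.om x u u = 0)
    (hT : ∀ (y : T.M) (u : T.E), (∀ v, T.om y u v = 0) → u = 0)
    (hdim : 0 < Module.finrank ℝ T.E)
    -- the Hamiltonian `F (x, G y)`, which is `comp F G`
    (F : S.M × ℝ → ℝ) (hF : S.Smooth2 F) (G : T.M → ℝ) (hG : T.Smooth G)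
    -- a compact regular level set
    (c : ℝ) (hc : RegularLevel (S.prod T) (comp F G) c)
    -- either `T` is a surface (or compact regular level sets of `G` carry periodic orbits), and
    -- `T` is not compact or the form is exact at the level set;
    -- or `G` satisfies the Weinstein conjecture and the level set is of contact type
    (h : ((T.IsSurface ∨ T.Closes G) ∧
          (¬ CompactSpace T.M ∨ ExactAt (S.prod T) (comp F G) c)) ∨
        (Weinstein T G ∧ ContactType (S.prod T) (comp F G) c)) :
    ∃ (x : S.M) (δ : ℝ → T.M) (P : ℝ),
      (S.prod T).IsPeriodic (comp F G) (fun t => (x, δ t)) P ∧ ∀ t, F (x, G (δ t)) = c := by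
  rcases h with ⟨h, hex⟩ | ⟨hW, hct⟩
  · have hcl : T.Closes G := by
      rcases h with h | h
      · exact closes_surface h hG
      · exact h
    exact closes_exact hS hT hdim hF hG hcl hc.nonempty hc.compact hc.regular hex
  · exact closes_contact hS hT hdim hF hG hW hc hct

end Pool.Agent.H21.WS.ArbitraryFirst
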