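import Mathlib
import Pool.Agent.H21.WS.Defs
import Pool.Graph.R_pool_sql_team_seeded_64922ed1.X167.W.Surf

/-! Hamiltonians on `S × T`, `T` a surface, whose frozen flows preserve `d_x H`. -/

open Set Filter Bundle Module Pool.Agent.Helper186 Pool.Agent.X167.W Pool.Agent.H21.WS
open Pool.Agent.H826R2.Wein
open scoped Topology ContDiff Manifold

noncomputable section

namespace Pool.Agent.H21.WS

universe u

/-- The Poisson bracket `{f, g}` vanishes: the derivative of `g` along the Hamiltonian vector field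
`X` of `f`, defined by `ω(X, ·) = - df`, is zero. -/
def Commute (T : Sys.{u}) (f g : T.M → ℝ) : Prop :=
  ∀ (y : T.M) (X : T.E), (∀ v, T.om y X v = - T.D f y v) → T.D g y X = 0

/-- **Compact invariant parts of level sets on symplectic surfaces.** -/
theorem closes_sub {S : Sys.{u}} (hS : S.IsSurface) {H : S.M → ℝ} (hH : S.Smooth H)
    {ι : Type*} {g : ι → S.M → ℝ} (hg : ∀ i, S.Smooth (g i)) (hcomm : ∀ i, Commute S H (g i))
    {c : ℝ} (hL : IsCompact {y | H y = c ∧ ∀ i, g i y = 0})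
    (hreg : ∀ y, H y = c → (∀ i, g i y = 0) → S.d H y ≠ 0) {x : S.M} (hx : H x = c)
    (hx' : ∀ i, g i x = 0) :
    ∃ (γ : ℝ → S.M) (P : ℝ), S.IsPeriodic H γ P ∧ γ 0 = x ∧ ∀ t, H (γ t) = c ∧
      ∀ i, g i (γ t) = 0 := by
  obtain ⟨X, hX⟩ := exists_X hS H
  have hXs := smooth_X hS hH hX
  obtain ⟨χ, Fl, hχ, hFl0, hFl, hadd, hcont⟩ := exists_cut_flow hXs hL
  have hdX : ∀ y : S.M, S.d H y (X y) = 0 := by
    intro y
    have h1 := hX y (X y)
    have h2 : S.form y (X y) (X y) = 0 := hS.alt y (X y)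
    linarith
  have hdg : ∀ i (y : S.M), S.d (g i) y (X y) = 0 := fun i y => hcomm i y (X y) (hX y)
  have hint : ∀ k : S.M → ℝ, S.Smooth k → (∀ y, S.d k y (X y) = 0) →
      ∀ (y : S.M) (t : ℝ), k (Fl y t) = k y := by
    intro k hk hdk y t
    have h1 : ∀ s, HasDerivAt (fun s => k (Fl y s)) 0 s := by
      intro s
      have h2 := hasDerivAt_along (W := fun z => ((χ z • X z : S.E) : TangentSpace 𝓘(ℝ, S.E) z))
        (hFl y s) hk
      refine h2.congr_deriv ?_
      show S.d k (Fl y s) (χ (Fl y s) • X (Fl y s)) = 0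
      rw [map_smul, hdk, smul_zero]
    have h2 := is_const_of_deriv_eq_zero (fun s => (h1 s).differentiableAt)
      (fun s => (h1 s).deriv) t 0
    simp only [hFl0] at h2
    exact h2
  have hval := hint H hH hdX
  have hvalg := fun i => hint (g i) (hg i) (hdg i)
  set L : Set S.M := {y | H y = c ∧ ∀ i, g i y = 0} with hLdef
  have hinv : ∀ y ∈ L, ∀ t, Fl y t ∈ L := fun y hy t =>
    ⟨(hval y t).trans hy.1, fun i => (hvalg i y t).trans (hy.2 i)⟩
  -- the local lemma
  have hloc : ∀ y ∈ L, ∀ᶠ z in 𝓝 y, z ∈ L → ∃ s : ℝ, |s| < 1 / 3 ∧ Fl z s = y := by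
    intro y hy
    have hXy : X y ≠ 0 := by
      intro h0
      apply hreg y hy.1 hy.2
      ext v
      have := hX y v
      rw [h0, map_zero] at this
      simpa using this
    obtain ⟨l, hl⟩ : ∃ l : S.E →L[ℝ] ℝ, l (X y) = 1 := by
      obtain ⟨l, hl⟩ := SeparatingDual.exists_eq_one (R := ℝ) hXy
      exact ⟨l, hl⟩
    obtain ⟨f, hf, hfl⟩ := exists_function y l
    -- `(f, H)` is locally injective
    have hG : ContMDiff 𝓘(ℝ, S.E) 𝓘(ℝ, ℝ × ℝ) ∞ (fun z => (f z, H z)) :=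
      hf.prodMk_space hH
    have hker : ∀ u : S.E, l u = 0 → S.d H y u = 0 → u = 0 := by
      intro u hu1 hu2
      by_contra hu
      -- `u` and `X y` are independent
      have hli : LinearIndependent ℝ ![X y, u] := by
        rw [LinearIndependent.pair_iff]
        intro a b hab
        have h1 : a = 0 := by
          have := congrArg l hab
          rw [map_add, map_smul, map_smul, hu1, hl] at this
          simpa using this
        subst h1
        rw [zero_smul, zero_add] at hab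
        exact ⟨rfl, (smul_eq_zero.1 hab).resolve_right hu⟩
      have hspan := hli.span_eq_top_of_card_eq_finrank (by simp [hS.dim])
      apply hreg y hy.1 hy.2
      ext v
      have hv : v ∈ Submodule.span ℝ (range ![X y, u]) := by rw [hspan]; trivial
      rw [Matrix.range_cons, Matrix.range_cons, Matrix.range_empty, union_empty] at hv
      rw [← Set.insert_eq] at hv
      obtain ⟨a, b, rfl⟩ := Submodule.mem_span_pair.1 hv
      rw [map_add, map_smul, map_smul, hdX, hu2]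
      simp
    have hinj : Function.Injective
        (mfderiv 𝓘(ℝ, S.E) 𝓘(ℝ, ℝ × ℝ) (fun z => (f z, H z)) y) := by
      have h1 : HasMFDerivAt 𝓘(ℝ, S.E) 𝓘(ℝ, ℝ) f y
          (mfderiv 𝓘(ℝ, S.E) 𝓘(ℝ, ℝ) f y : S.E →L[ℝ] ℝ) :=
        (hf.mdifferentiableAt (by simp)).hasMFDerivAt
      have h2 : HasMFDerivAt 𝓘(ℝ, S.E) 𝓘(ℝ, ℝ) H y (S.d H y) := Sys.hasD hH y
      have h3 : HasMFDerivAt 𝓘(ℝ, S.E) 𝓘(ℝ, ℝ × ℝ) (fun z => (f z, H z)) y
          ((mfderiv 𝓘(ℝ, S.E) 𝓘(ℝ, ℝ) f y : S.E →L[ℝ] ℝ).prod (S.d H y)) := by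
        exact ⟨h1.1.prodMk h2.1, h1.2.prodMk h2.2⟩
      rw [h3.mfderiv, injective_iff_map_eq_zero]
      intro u hu
      have h4 : (mfderiv 𝓘(ℝ, S.E) 𝓘(ℝ, ℝ) f y : S.E →L[ℝ] ℝ) u = (0:ℝ) := congrArg Prod.fst hu
      have h5 : S.d H y u = (0:ℝ) := congrArg Prod.snd hu
      exact hker u (by rw [← hfl]; exact h4) h5
    obtain ⟨U, hU, hUinj⟩ := locally_injective hG hinj
    -- `f` increases along the orbit of `y`
    have hder : HasDerivAt (fun s => f (Fl y s)) 1 0 := by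
      have h2 := hasDerivAt_along (W := fun z => ((χ z • X z : S.E) : TangentSpace 𝓘(ℝ, S.E) z))
        (hFl y 0) hf
      refine h2.congr_deriv ?_
      have e : Fl y 0 = y := hFl0 y
      show (mfderiv 𝓘(ℝ, S.E) 𝓘(ℝ, ℝ) f (Fl y 0) : S.E →L[ℝ] ℝ)
        (χ (Fl y 0) • X (Fl y 0)) = 1
      rw [e, hχ y hy, one_smul]
      exact (hfl _).trans hl
    have hcy : Continuous (fun s => Fl y s) := hcont.comp (continuous_const.prodMk continuous_id)
    have hUy : ∀ᶠ s in 𝓝 (0:ℝ), Fl y s ∈ interior U := by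
      apply hcy.continuousAt.preimage_mem_nhds
      show interior U ∈ 𝓝 (Fl y 0)
      rw [hFl0]
      exact interior_mem_nhds.2 hU
    obtain ⟨δ, hδ, hδ3, hδU, hδ1, hδ2⟩ : ∃ δ > (0:ℝ), δ < 1 / 3 ∧
        (∀ s ∈ Icc (-δ) δ, Fl y s ∈ interior U) ∧ f y < f (Fl y δ) ∧ f (Fl y (-δ)) < f y := by
      obtain ⟨r, hr, hrU⟩ := Metric.eventually_nhds_iff.1 hUy
      have hlin := hder.isLittleO.def (c := 1 / 2) (by norm_num)
      obtain ⟨r', hr', hr'U⟩ := Metric.eventually_nhds_iff.1 hlin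
      set δ := min (min (r / 2) (r' / 2)) (1 / 4) with hδdef
      have hδ : 0 < δ := by positivity
      have hδr : δ < r := lt_of_le_of_lt ((min_le_left _ _).trans (min_le_left _ _)) (by linarith)
      have hδr' : δ < r' := lt_of_le_of_lt ((min_le_left _ _).trans (min_le_right _ _)) (by linarith)
      have hδ4 : δ ≤ 1 / 4 := min_le_right _ _
      refine ⟨δ, hδ, by linarith, ?_, ?_, ?_⟩
      · intro s hs
        apply hrU
        rw [Real.dist_eq, sub_zero, abs_lt]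
        constructor <;> linarith [hs.1, hs.2]
      · have h1 := hr'U (y := δ) (by rw [Real.dist_eq, sub_zero, abs_of_pos hδ]; exact hδr')
        simp only [hFl0, sub_zero, smul_eq_mul, mul_one, Real.norm_eq_abs, abs_of_pos hδ] at h1
        have h2 := (abs_le.1 h1).1
        linarith
      · have h1 := hr'U (y := -δ) (by
          rw [Real.dist_eq, sub_zero, abs_neg, abs_of_pos hδ]; exact hδr')
        simp only [hFl0, sub_zero, smul_eq_mul, mul_one, Real.norm_eq_abs, abs_neg,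
          abs_of_pos hδ] at h1
        have h2 := (abs_le.1 h1).2
        linarith
    have hfc : Continuous f := hf.continuous
    have hc1 : Continuous (fun z => f (Fl z δ)) :=
      hfc.comp (hcont.comp (continuous_id.prodMk continuous_const))
    have hc2 : Continuous (fun z => f (Fl z (-δ))) :=
      hfc.comp (hcont.comp (continuous_id.prodMk continuous_const))
    have ht : ∀ᶠ z in 𝓝 y, ∀ s ∈ Icc (-δ) δ, Fl z s ∈ interior U := by
      apply isCompact_Icc.eventually_forall_of_forall_eventually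
      intro s hs
      exact hcont.continuousAt.preimage_mem_nhds (isOpen_interior.mem_nhds (hδU s hs))
    filter_upwards [ht, hc1.continuousAt.eventually (lt_mem_nhds hδ1),
      hc2.continuousAt.eventually (gt_mem_nhds hδ2)] with z hz1 hz2 hz3 hzL
    have hcz : ContinuousOn (fun s => f (Fl z s)) (Icc (-δ) δ) :=
      (hfc.comp (hcont.comp (continuous_const.prodMk continuous_id))).continuousOn
    obtain ⟨s, hs, hs'⟩ := intermediate_value_Icc (by linarith) hcz ⟨hz3.le, hz2.le⟩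
    refine ⟨s, ?_, ?_⟩
    · rw [abs_lt]
      constructor <;> linarith [hs.1, hs.2]
    · apply hUinj (interior_subset (hz1 s hs)) (mem_of_mem_nhds hU)
      have h1 : H (Fl z s) = H y := (hval z s).trans (hzL.1.trans hy.1.symm)
      exact Prod.ext hs' h1
  obtain ⟨T, hT, hper⟩ := exists_return hadd hL hinv hloc (show x ∈ L from ⟨hx, hx'⟩)
  refine ⟨Fl x, T, ⟨hT, hper, fun t => ?_⟩, hFl0 x, fun t => hinv x ⟨hx, hx'⟩ t⟩
  refine ⟨X (Fl x t), ?_, fun v => hX _ v⟩
  have h1 := hFl x t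
  simp only [hχ _ (hinv x ⟨hx, hx'⟩ t), one_smul] at h1
  exact h1

variable {S T : Sys.{u}} {H : S.M × T.M → ℝ} {c : ℝ}

/-- smooth functions on the product -/
abbrev SmoothProd (S T : Sys.{u}) (H : S.M × T.M → ℝ) : Prop :=
  ContMDiff (𝓘(ℝ, S.E).prod 𝓘(ℝ, T.E)) 𝓘(ℝ, ℝ) ∞ H

lemma smoothProd_of (hH : (S.prod T).Smooth H) : SmoothProd S T H := hH

lemma smooth_left (hH : SmoothProd S T H) (y : T.M) : S.Smooth (fun x => H (x, y)) :=
  ContMDiff.comp hH (contMDiff_id.prodMk contMDiff_const)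

lemma smooth_right (hH : SmoothProd S T H) (x : S.M) : T.Smooth (fun y => H (x, y)) :=
  ContMDiff.comp hH (contMDiff_const.prodMk contMDiff_id)

/-- the differential on the product -/
def dP (H : S.M × T.M → ℝ) (p : S.M × T.M) : S.E × T.E →L[ℝ] ℝ :=
  mfderiv (𝓘(ℝ, S.E).prod 𝓘(ℝ, T.E)) 𝓘(ℝ, ℝ) H p

lemma dP_eq (H : S.M × T.M → ℝ) (p : S.M × T.M) : (S.prod T).d H p = dP H p := rfl

lemma hasD_prod (hH : SmoothProd S T H) (p : S.M × T.M) :
    HasMFDerivAt (𝓘(ℝ, S.E).prod 𝓘(ℝ, T.E)) 𝓘(ℝ, ℝ) H p (dP H p) :=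
  (hH.mdifferentiableAt (by simp)).hasMFDerivAt

lemma d_left (hH : SmoothProd S T H) (x : S.M) (y : T.M) (u : S.E) :
    S.d (fun x => H (x, y)) x u = dP H (x, y) (u, 0) := by
  have h1 : HasMFDerivAt 𝓘(ℝ, S.E) (𝓘(ℝ, S.E).prod 𝓘(ℝ, T.E)) (fun x : S.M => (x, y)) x
      ((ContinuousLinearMap.id ℝ S.E).prod (0 : S.E →L[ℝ] T.E)) :=
    (hasMFDerivAt_id x).prodMk (hasMFDerivAt_const y x)
  have h2 := HasMFDerivAt.comp x (hasD_prod hH (x, y)) h1
  exact DFunLike.congr_fun h2.mfderiv u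

lemma d_right (hH : SmoothProd S T H) (x : S.M) (y : T.M) (v : T.E) :
    T.d (fun y => H (x, y)) y v = dP H (x, y) (0, v) := by
  have h1 : HasMFDerivAt 𝓘(ℝ, T.E) (𝓘(ℝ, S.E).prod 𝓘(ℝ, T.E)) (fun y : T.M => (x, y)) y
      ((0 : T.E →L[ℝ] S.E).prod (ContinuousLinearMap.id ℝ T.E)) :=
    (hasMFDerivAt_const x y).prodMk (hasMFDerivAt_id y)
  have h2 := HasMFDerivAt.comp y (hasD_prod hH (x, y)) h1
  exact DFunLike.congr_fun h2.mfderiv v

lemma d_split (hH : SmoothProd S T H) (x : S.M) (y : T.M) (u : S.E) (v : T.E) :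
    (S.prod T).d H (x, y) (u, v) =
      S.d (fun x => H (x, y)) x u + T.d (fun y => H (x, y)) y v := by
  rw [d_left hH, d_right hH]
  have h6 : ((u, v) : S.E × T.E) = (u, 0) + (0, v) := by
    ext <;> simp
  show dP H (x, y) (u, v) = _
  rw [h6, map_add]

/-- the partial derivative is a smooth function of the second variable -/
lemma smooth_partial (hH : SmoothProd S T H) (x : S.M) (u : S.E) :
    T.Smooth (fun y => S.d (fun x => H (x, y)) x u) := by
  have e : (fun y : T.M => S.d (fun x => H (x, y)) x u) = fun y => dP H (x, y) (u, 0) := by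
    funext y
    exact d_left hH x y u
  rw [e]
  have h1 := smoothForm_dForm hH
  have h2 : ContMDiff 𝓘(ℝ, T.E) 𝓘(ℝ, S.E).tangent ∞
      (fun _ : T.M => (⟨x, u⟩ : TangentBundle 𝓘(ℝ, S.E) S.M)) := contMDiff_const
  have h3 : ContMDiff 𝓘(ℝ, T.E) 𝓘(ℝ, T.E).tangent ∞
      (fun y : T.M => (⟨y, (0 : T.E)⟩ : TangentBundle 𝓘(ℝ, T.E) T.M)) :=
    Bundle.contMDiff_zeroSection ℝ (TangentSpace 𝓘(ℝ, T.E) : T.M → Type _)
  have h4 := (contMDiff_equivTangentBundleProd_symm (n := ∞) (I := 𝓘(ℝ, S.E)) (M := S.M)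
    (I' := 𝓘(ℝ, T.E)) (M' := T.M)).comp (h2.prodMk h3)
  intro y
  exact h1.comp (h4 y) le_rfl

end Pool.Agent.H21.WS
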