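import Mathlib
import Pool.Agent.H21.WS.Frozen

/-! Hamiltonians on `S × T`, `T` a surface, whose frozen flows preserve `d_x H`: the theorem. -/

open Set Filter Bundle Module Pool.Agent.Helper186 Pool.Agent.X167.W Pool.Agent.H21.WS
open scoped Topology ContDiff Manifold

noncomputable section

namespace Pool.Agent.H21.WS

universe u

variable {S T : Sys.{u}} {H : S.M × T.M → ℝ} {c : ℝ}

/-- Either the first variable is at rest at a point of the level set, or the second factor is
compact and every point of it is the projection of a point of the level set. -/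
theorem onto_or_rest [ConnectedSpace T.M] (hH : SmoothProd S T H)
    (hne : ∃ p, H p = c) (hcpt : IsCompact {p | H p = c})
    (hrest : ∀ (x : S.M) (y : T.M), H (x, y) = c → S.d (fun x => H (x, y)) x ≠ 0) :
    CompactSpace T.M ∧ ∀ y, ∃ x, H (x, y) = c := by
  have hHc : Continuous H := ContMDiff.continuous hH
  set K : Set T.M := Prod.snd '' {p : S.M × T.M | H p = c} with hK
  have hKc : IsCompact K := hcpt.image continuous_snd
  have hKo : IsOpen K := by
    rw [isOpen_iff_mem_nhds]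
    rintro _ ⟨⟨x, y⟩, hxy, rfl⟩
    have hxy' : H (x, y) = c := hxy
    have : LocallyConnectedSpace S.M := ChartedSpace.locallyConnectedSpace S.E S.M
    obtain ⟨U, ⟨hUo, hxU, hUc⟩, -⟩ := (LocallyConnectedSpace.open_connected_basis x).mem_iff.1
      (Filter.univ_mem : (univ : Set S.M) ∈ 𝓝 x)
    have hU : U ∈ 𝓝 x := hUo.mem_nhds hxU
    obtain ⟨a, haU, ha⟩ := Sys.exists_gt (hrest x y hxy') hU
    obtain ⟨b, hbU, hb⟩ := Sys.exists_lt (hrest x y hxy') hU
    simp only [hxy'] at ha hb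
    have h1 : ∀ᶠ y' in 𝓝 y, c < H (a, y') := by
      have : ContinuousAt (fun y' => H (a, y')) y := by fun_prop
      exact this.eventually (lt_mem_nhds ha)
    have h2 : ∀ᶠ y' in 𝓝 y, H (b, y') < c := by
      have : ContinuousAt (fun y' => H (b, y')) y := by fun_prop
      exact this.eventually (gt_mem_nhds hb)
    filter_upwards [h1, h2] with y' hy1 hy2
    have hcont : ContinuousOn (fun x' => H (x', y')) U := by fun_prop
    obtain ⟨x', -, hx'⟩ := hUc.isPreconnected.intermediate_value hbU haU hcont ⟨hy2.le, hy1.le⟩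
    exact ⟨(x', y'), hx', rfl⟩
  have hKn : K.Nonempty := by
    obtain ⟨p, hp⟩ := hne
    exact ⟨p.2, p, hp, rfl⟩
  have hKu : K = univ := IsClopen.eq_univ ⟨hKc.isClosed, hKo⟩ hKn
  refine ⟨⟨hKu ▸ hKc⟩, fun y => ?_⟩
  have : y ∈ K := by rw [hKu]; trivial
  obtain ⟨⟨x, y'⟩, hxy, rfl⟩ := this
  exact ⟨x, hxy⟩

/-- the periodic orbit through a rest point -/
theorem orbit_at_rest (hT : T.IsSurface) (hH : SmoothProd S T H)
    (hcomm : ∀ (x : S.M) (u : S.E),
      Commute T (fun y => H (x, y)) (fun y => S.d (fun x => H (x, y)) x u))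
    (hcpt : IsCompact {p | H p = c})
    (hreg : ∀ p : S.M × T.M, H p = c → (S.prod T).d H p ≠ 0) {x : S.M} {y : T.M}
    (hxy : H (x, y) = c) (hx : S.d (fun x => H (x, y)) x = 0) :
    ∃ (δ : ℝ → T.M) (P : ℝ), (S.prod T).IsPeriodic H (fun t => (x, δ t)) P ∧ δ 0 = y ∧
      ∀ t, H (x, δ t) = c := by
  have hHc : Continuous H := ContMDiff.continuous hH
  have hL : IsCompact {y | H (x, y) = c ∧ ∀ u : S.E, S.d (fun x => H (x, y)) x u = 0} := by
    have h1 : IsCompact {y : T.M | H (x, y) = c} := by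
      have h3 : {y : T.M | H (x, y) = c} = Prod.snd '' ({p | H p = c} ∩ Prod.fst ⁻¹' {x}) := by
        ext y'
        constructor
        · intro h
          exact ⟨(x, y'), ⟨h, rfl⟩, rfl⟩
        · rintro ⟨⟨x'', y''⟩, ⟨h, hy''⟩, rfl⟩
          have : x'' = x := hy''
          subst this
          exact h
      rw [h3]
      exact (hcpt.inter_right (isClosed_singleton.preimage continuous_fst)).image continuous_snd
    have h2 : {y | H (x, y) = c ∧ ∀ u : S.E, S.d (fun x => H (x, y)) x u = 0} =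
        {y : T.M | H (x, y) = c} ∩ ⋂ u : S.E, {y | S.d (fun x => H (x, y)) x u = 0} := by
      ext y'
      simp
    rw [h2]
    refine h1.inter_right (isClosed_iInter fun u => ?_)
    exact isClosed_eq (ContMDiff.continuous (smooth_partial hH x u)) continuous_const
  have hreg' : ∀ y', H (x, y') = c → (∀ u : S.E, S.d (fun x => H (x, y')) x u = 0) →
      T.d (fun y => H (x, y)) y' ≠ 0 := by
    intro y' h1 h2 h3
    apply hreg (x, y') h1
    ext ⟨a, b⟩
    rw [d_split hH, h2, h3]
    simp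
  obtain ⟨δ, P, hδ, hδ0, hδc⟩ := closes_sub hT (smooth_right hH x)
    (g := fun (u : S.E) (y : T.M) => S.d (fun x => H (x, y)) x u)
    (fun u => smooth_partial hH x u) (fun u => hcomm x u) hL hreg' (x := y) hxy
    (fun u => by rw [hx]; rfl)
  refine ⟨δ, P, ⟨hδ.pos, fun t => ?_, fun t => ?_⟩, hδ0, fun t => (hδc t).1⟩
  · show (x, δ (t + P)) = (x, δ t)
    rw [hδ.period]
  · obtain ⟨X, hX, hX'⟩ := hδ.orbit t
    refine ⟨(0, X), ?_, ?_⟩
    · have h5 : HasMFDerivAt 𝓘(ℝ, ℝ) (𝓘(ℝ, S.E).prod 𝓘(ℝ, T.E)) (fun t => (x, δ t)) t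
          ((0 : ℝ →L[ℝ] S.E).prod ((1 : ℝ →L[ℝ] ℝ).smulRight X)) :=
        (hasMFDerivAt_const x t).prodMk hX
      have h6 : ((0 : ℝ →L[ℝ] S.E).prod ((1 : ℝ →L[ℝ] ℝ).smulRight X)) =
          (1 : ℝ →L[ℝ] ℝ).smulRight ((0, X) : S.E × T.E) := by
        ext <;> simp
      rw [h6] at h5
      exact h5
    · rintro ⟨a, b⟩
      have hX2 : T.form (δ t) X b = - T.d (fun y => H (x, y)) (δ t) b := hX' b
      show (S.prod T).form (x, δ t) (0, X) (a, b) = - (S.prod T).d H (x, δ t) (a, b)
      rw [prod_form_apply, d_split hH, (hδc t).2 a]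
      simp only [map_zero, _root_.zero_apply, zero_add]
      exact hX2

/-- **Frozen flows which preserve `d_x H`.** -/
theorem frozen [ConnectedSpace T.M] (hT : T.IsSurface) (hH : SmoothProd S T H)
    (hcomm : ∀ (x : S.M) (u : S.E),
      Commute T (fun y => H (x, y)) (fun y => S.d (fun x => H (x, y)) x u))
    (hc : RegularLevel (S.prod T) H c)
    (h : ¬ CompactSpace T.M ∨ ∃ y, ∀ x, H (x, y) ≠ c) :
    (∃ (x : S.M) (y : T.M), H (x, y) = c ∧ S.d (fun x => H (x, y)) x = 0) ∧
      ∀ (x : S.M) (y : T.M), H (x, y) = c → S.d (fun x => H (x, y)) x = 0 →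
        ∃ (δ : ℝ → T.M) (P : ℝ), (S.prod T).IsPeriodic H (fun t => (x, δ t)) P ∧ δ 0 = y ∧
          ∀ t, H (x, δ t) = c := by
  constructor
  · by_contra hno
    push Not at hno
    obtain ⟨h1, h2⟩ := onto_or_rest hH hc.nonempty hc.compact hno
    rcases h with h | ⟨y, hy⟩
    · exact h h1
    · obtain ⟨x, hx⟩ := h2 y
      exact hy x hx
  · intro x y hxy hx
    exact orbit_at_rest hT hH hcomm hc.compact hc.regular hxy hx

end Pool.Agent.H21.WS
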